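import Mathlib

/-!
# MP_fb7d21_an, question Q1: pairs one of whose tuples is contracting

`G` is a locally compact second countable group, `ρ` a continuous representation of `G` by
matrices over `𝕜 = ℝ` or `ℂ`, `T` a measure preserving map of a probability space `X`, and
`ι : X → Fin n` a measurable map (for an interval exchange: the index of the interval that contains
the point).  A tuple `g` in `G ^ n` gives the function `x ↦ g (ι x)`.

`result`: for almost every pair `(g, h)` in `G ^ n × G ^ n` such that `g` or `h` is contracting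
(`Contracting`), the two functions are not cohomologous.

Here `g` is contracting if there are a nonempty open set `K`, closed under multiplication by
nonzero scalars and missed by the kernel of some functional, and a curve `u t` in `G ^ n` with
`u t → 1` and `ρ (u t k) = 1 + t (Y k) + o(t)`, such that each `ρ (g k)` maps the nonzero vectors
of the closure of `K` into `K`, and `ψ (Y_k ρ(g_k) x) / ψ (ρ(g_k) x)` has positive real part for
all such vectors `x` and all functionals `ψ` whose kernel misses `K`.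

Proof.  If `f (T x) φ x = ψ x f x` almost everywhere then the products along orbits of `φ` and `ψ`
have norms that are comparable outside a set of small measure, with a constant that does not
depend on the length (`coh_comp`; `T` is only assumed to preserve the measure).
If `g0` is contracting then, for `g` in a fixed neighbourhood of `g0` and all small `t > 0`,
`|ψ (ρ(u_t g_k) y)| ≥ (1 + c t) |ψ (ρ(g_k) y)|` for all `y` in `K` and all `ψ` whose kernel misses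
`K`, by compactness (`IsChart.near`, `IsChart.uniform`).  Changing the factors of a product one
after the other gives the same inequality with `(1 + c t) ^ m` for products of `m` factors
(`step_growth`), and the norms of such products are controlled by one coefficient
(`IsChart.bound`).  Hence `u_t g` and `g` are not both comparable with the same `h` (`no_two`).
If the set `E` of all contracting `g` that are comparable with `h` had positive measure, then near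
some point `g0` of `E` Steinhaus' theorem would give `g` and `u_t g` in `E` for all small `t`, a
contradiction (`null`).
-/

open MeasureTheory Matrix

namespace Pool.Agent.Results.MP_fb7d21_an.ContractingTuples

/-- `φ` and `ψ` are measurably cohomologous over `T`: there is a measurable `f : X → G` with
`f (T x) * φ x = ψ x * f x` for almost every `x`. -/
def Cohomologous {X G : Type*} [MeasurableSpace X] (μ : Measure X) (T : X → X) [Group G]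
    [MeasurableSpace G] (φ ψ : X → G) : Prop :=
  ∃ f : X → G, Measurable f ∧ ∀ᵐ x ∂μ, f (T x) * φ x = ψ x * f x

/-- Products along orbits. -/
def cyc {X G : Type*} [Monoid G] (T : X → X) (φ : X → G) : ℕ → X → G
  | 0, _ => 1
  | n + 1, x => φ (T^[n] x) * cyc T φ n x

/-- Sum of the norms of the entries. -/
def S {𝕜 : Type*} [NormedField 𝕜] {d : ℕ} (M : Matrix (Fin d) (Fin d) 𝕜) : ℝ := ∑ i, ∑ j, ‖M i j‖

lemma S_nonneg {𝕜 : Type*} [NormedField 𝕜] {d : ℕ} (M : Matrix (Fin d) (Fin d) 𝕜) : 0 ≤ S M :=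
  Finset.sum_nonneg fun _ _ => Finset.sum_nonneg fun _ _ => norm_nonneg _

lemma S_mul {𝕜 : Type*} [NormedField 𝕜] {d : ℕ} (A B : Matrix (Fin d) (Fin d) 𝕜) :
    S (A * B) ≤ S A * S B := by
  unfold S
  have h1 : ∀ i, ∑ j, ‖(A * B) i j‖ ≤ ∑ k, ‖A i k‖ * ∑ k', ∑ j, ‖B k' j‖ := by
    intro i
    calc ∑ j, ‖(A * B) i j‖ ≤ ∑ j, ∑ k, ‖A i k‖ * ‖B k j‖ := by
          refine Finset.sum_le_sum fun j _ => ?_
          rw [Matrix.mul_apply]
          refine (norm_sum_le _ _).trans (le_of_eq ?_)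
          exact Finset.sum_congr rfl fun k _ => norm_mul _ _
      _ = ∑ k, ‖A i k‖ * ∑ j, ‖B k j‖ := by
          rw [Finset.sum_comm]
          exact Finset.sum_congr rfl fun k _ => by rw [Finset.mul_sum]
      _ ≤ ∑ k, ‖A i k‖ * ∑ k', ∑ j, ‖B k' j‖ := by
          refine Finset.sum_le_sum fun k _ => mul_le_mul_of_nonneg_left ?_ (norm_nonneg _)
          exact Finset.single_le_sum (f := fun k' => ∑ j, ‖B k' j‖)
            (fun k' _ => Finset.sum_nonneg fun j _ => norm_nonneg _) (Finset.mem_univ k)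
  calc ∑ i, ∑ j, ‖(A * B) i j‖ ≤ ∑ i, ∑ k, ‖A i k‖ * ∑ k', ∑ j, ‖B k' j‖ :=
        Finset.sum_le_sum fun i _ => h1 i
    _ = (∑ i, ∑ k, ‖A i k‖) * ∑ k', ∑ j, ‖B k' j‖ := by
        rw [Finset.sum_mul]
        exact Finset.sum_congr rfl fun i _ => by rw [Finset.sum_mul]

/-- The functional `ψ` does not vanish at any point of `K`. -/
def Avoids {𝕜 : Type*} [RCLike 𝕜] {d : ℕ} (K : Set (Fin d → 𝕜)) (ψ : Fin d → 𝕜) : Prop :=
  ∀ x ∈ K, ψ ⬝ᵥ x ≠ 0

section cone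

variable {𝕜 : Type*} [RCLike 𝕜] {d : ℕ} {K : Set (Fin d → 𝕜)}

/-- `K` is a nonempty open set, closed under multiplication by nonzero scalars, and some linear
functional does not vanish on it. -/
structure IsChart (K : Set (Fin d → 𝕜)) : Prop where
  isOpen : IsOpen K
  nonempty : K.Nonempty
  smul : ∀ x ∈ K, ∀ c : 𝕜, c ≠ 0 → c • x ∈ K
  avoids : ∃ ψ, Avoids K ψ

/-- The matrix `M` maps the nonzero vectors of the closure of `K` into `K`. -/
def MapsIn (K : Set (Fin d → 𝕜)) (M : Matrix (Fin d) (Fin d) 𝕜) : Prop :=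
  ∀ x ∈ closure K, x ≠ 0 → M *ᵥ x ∈ K

/-- For every `x ≠ 0` in the closure of `K` and every functional `ψ` that does not vanish on `K`
the quotient `ψ(Y M x) / ψ(M x)` has positive real part. -/
def PushedBy (K : Set (Fin d → 𝕜)) (Y M : Matrix (Fin d) (Fin d) 𝕜) : Prop :=
  ∀ x ∈ closure K, x ≠ 0 → ∀ ψ, Avoids K ψ →
    0 < RCLike.re (ψ ⬝ᵥ (Y *ᵥ (M *ᵥ x)) / ψ ⬝ᵥ (M *ᵥ x))

lemma Avoids.ne_zero (hK : IsChart K) {ψ : Fin d → 𝕜} (h : Avoids K ψ) : ψ ≠ 0 := by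
  rintro rfl
  obtain ⟨x, hx⟩ := hK.nonempty
  exact h x hx (zero_dotProduct x)

lemma IsChart.ne_zero (hK : IsChart K) {x : Fin d → 𝕜} (hx : x ∈ K) : x ≠ 0 := by
  rintro rfl
  obtain ⟨ψ, hψ⟩ := hK.avoids
  exact hψ 0 hx (dotProduct_zero ψ)

lemma IsChart.smul_closure (hK : IsChart K) {x : Fin d → 𝕜} (hx : x ∈ closure K) {c : 𝕜}
    (hc : c ≠ 0) : c • x ∈ closure K := by
  have h1 : Continuous fun x : Fin d → 𝕜 => c • x := continuous_const_smul c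
  exact map_mem_closure h1 hx fun y hy => hK.smul y hy c hc

lemma Avoids.smul {ψ : Fin d → 𝕜} (h : Avoids K ψ) {c : 𝕜} (hc : c ≠ 0) : Avoids K (c • ψ) := by
  intro x hx
  rw [smul_dotProduct, smul_eq_mul]
  exact mul_ne_zero hc (h x hx)

lemma norm_unit {x : Fin d → 𝕜} (hx : x ≠ 0) :
    ((‖x‖⁻¹ : ℝ) : 𝕜) ≠ 0 ∧ ((‖x‖⁻¹ : ℝ) : 𝕜) • x ∈ Metric.sphere (0 : Fin d → 𝕜) 1 := by
  have hn : 0 < ‖x‖ := norm_pos_iff.2 hx
  refine ⟨by exact_mod_cast (inv_pos.2 hn).ne', ?_⟩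
  rw [mem_sphere_zero_iff_norm, norm_smul, RCLike.norm_ofReal, abs_of_pos (inv_pos.2 hn),
    inv_mul_cancel₀ hn.ne']

lemma IsChart.isClosed_avoids (hK : IsChart K) :
    IsClosed {ψ : Fin d → 𝕜 | ψ = 0 ∨ Avoids K ψ} := by
  rw [← isOpen_compl_iff, isOpen_iff_mem_nhds]
  intro ψ0 hψ0
  have hψ0' : ψ0 ≠ 0 ∧ ¬ Avoids K ψ0 := by
    constructor
    · intro h; exact hψ0 (Or.inl h)
    · intro h; exact hψ0 (Or.inr h)
  obtain ⟨h0, h1⟩ := hψ0'
  unfold Avoids at h1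
  push Not at h1
  obtain ⟨x, hx, hx0⟩ := h1
  obtain ⟨j, hj⟩ : ∃ j, ψ0 j ≠ 0 := by
    by_contra hcon
    push Not at hcon
    exact h0 (funext hcon)
  have hcont : ContinuousAt (fun ψ : Fin d → 𝕜 => x - ((ψ ⬝ᵥ x) / ψ j) • (Pi.single j (1 : 𝕜) :
      Fin d → 𝕜)) ψ0 := by
    have hd : Continuous fun ψ : Fin d → 𝕜 => ψ ⬝ᵥ x := by
      unfold dotProduct
      fun_prop
    exact continuousAt_const.sub ((hd.continuousAt.div (continuous_apply j).continuousAt hj).smul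
      continuousAt_const)
  have hmem : ∀ᶠ ψ in nhds ψ0, x - ((ψ ⬝ᵥ x) / ψ j) • (Pi.single j (1 : 𝕜) : Fin d → 𝕜) ∈ K := by
    refine hcont.eventually_mem (hK.isOpen.mem_nhds ?_)
    rw [hx0, zero_div, zero_smul, sub_zero]
    exact hx
  have hj' : ∀ᶠ ψ : Fin d → 𝕜 in nhds ψ0, ψ j ≠ 0 :=
    (continuous_apply j).continuousAt.eventually_ne hj
  filter_upwards [hmem, hj'] with ψ h2 h3 h4
  rcases h4 with h4 | h4
  · exact h3 (by rw [h4]; rfl)
  · refine h4 _ h2 ?_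
    rw [dotProduct_sub, dotProduct_smul, dotProduct_single, smul_eq_mul, mul_one,
      div_mul_cancel₀ _ h3, sub_self]

lemma IsChart.compact1 (_hK : IsChart K) :
    IsCompact (closure K ∩ Metric.sphere (0 : Fin d → 𝕜) 1) :=
  (isCompact_sphere _ _).inter_left isClosed_closure

lemma IsChart.compact2 (hK : IsChart K) :
    IsCompact ({ψ : Fin d → 𝕜 | ψ = 0 ∨ Avoids K ψ} ∩ Metric.sphere (0 : Fin d → 𝕜) 1) :=
  (isCompact_sphere _ _).inter_left hK.isClosed_avoids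

lemma sphere_ne {x : Fin d → 𝕜} (hx : x ∈ Metric.sphere (0 : Fin d → 𝕜) 1) : x ≠ 0 := by
  rintro rfl
  simp at hx

/-- the two conditions persist near `M`, and with room -/
lemma IsChart.near (hK : IsChart K) {Y M0 : Matrix (Fin d) (Fin d) 𝕜} (h1 : MapsIn K M0)
    (h2 : PushedBy K Y M0) :
    ∃ c : ℝ, 0 < c ∧ ∀ᶠ z : Matrix (Fin d) (Fin d) 𝕜 × Matrix (Fin d) (Fin d) 𝕜 in
      nhds M0 ×ˢ nhds 0, ∀ x ∈ closure K, x ≠ 0 → ∀ ψ, Avoids K ψ →
        z.1 *ᵥ x ∈ K ∧ c < RCLike.re (ψ ⬝ᵥ ((Y + z.2) *ᵥ (z.1 *ᵥ x)) / ψ ⬝ᵥ (z.1 *ᵥ x)) := by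
  set D := (closure K ∩ Metric.sphere (0 : Fin d → 𝕜) 1) ×ˢ
    ({ψ : Fin d → 𝕜 | ψ = 0 ∨ Avoids K ψ} ∩ Metric.sphere (0 : Fin d → 𝕜) 1) with hD
  have hDc : IsCompact D := hK.compact1.prod hK.compact2
  have hav : ∀ z ∈ D, z.1 ∈ closure K ∧ z.1 ≠ 0 ∧ Avoids K z.2 := by
    rintro ⟨x, ψ⟩ ⟨⟨hx1, hx2⟩, hψ1, hψ2⟩
    exact ⟨hx1, sphere_ne hx2, hψ1.resolve_left (sphere_ne hψ2)⟩
  have hden : ∀ z ∈ D, z.2 ⬝ᵥ (M0 *ᵥ z.1) ≠ 0 := fun z hz =>
    (hav z hz).2.2 _ (h1 _ (hav z hz).1 (hav z hz).2.1)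
  have hc1 : Continuous fun w : (Matrix (Fin d) (Fin d) 𝕜 × Matrix (Fin d) (Fin d) 𝕜) ×
      ((Fin d → 𝕜) × (Fin d → 𝕜)) => w.2.2 ⬝ᵥ ((Y + w.1.2) *ᵥ (w.1.1 *ᵥ w.2.1)) := by
    refine Continuous.dotProduct (by fun_prop) ?_
    refine Continuous.matrix_mulVec (by fun_prop) ?_
    exact Continuous.matrix_mulVec (by fun_prop) (by fun_prop)
  have hc2 : Continuous fun w : (Matrix (Fin d) (Fin d) 𝕜 × Matrix (Fin d) (Fin d) 𝕜) ×
      ((Fin d → 𝕜) × (Fin d → 𝕜)) => w.2.2 ⬝ᵥ (w.1.1 *ᵥ w.2.1) := by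
    refine Continuous.dotProduct (by fun_prop) ?_
    exact Continuous.matrix_mulVec (by fun_prop) (by fun_prop)
  have hc3 : Continuous fun w : (Matrix (Fin d) (Fin d) 𝕜 × Matrix (Fin d) (Fin d) 𝕜) ×
      ((Fin d → 𝕜) × (Fin d → 𝕜)) => w.1.1 *ᵥ w.2.1 :=
    Continuous.matrix_mulVec (by fun_prop) (by fun_prop)
  have hq : ∀ z ∈ D, ContinuousAt (fun w : (Matrix (Fin d) (Fin d) 𝕜 ×
      Matrix (Fin d) (Fin d) 𝕜) × ((Fin d → 𝕜) × (Fin d → 𝕜)) =>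
      RCLike.re (w.2.2 ⬝ᵥ ((Y + w.1.2) *ᵥ (w.1.1 *ᵥ w.2.1)) / w.2.2 ⬝ᵥ (w.1.1 *ᵥ w.2.1)))
      ((M0, 0), z) := fun z hz =>
    RCLike.continuous_re.continuousAt.comp
      (hc1.continuousAt.div hc2.continuousAt (hden z hz))
  have hcD : ContinuousOn (fun z : (Fin d → 𝕜) × (Fin d → 𝕜) =>
      RCLike.re (z.2 ⬝ᵥ ((Y + 0) *ᵥ (M0 *ᵥ z.1)) / z.2 ⬝ᵥ (M0 *ᵥ z.1))) D := by
    intro z hz
    have h3 : ContinuousAt (fun z : (Fin d → 𝕜) × (Fin d → 𝕜) =>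
        (((M0, 0), z) : (Matrix (Fin d) (Fin d) 𝕜 × Matrix (Fin d) (Fin d) 𝕜) ×
          ((Fin d → 𝕜) × (Fin d → 𝕜)))) z := by fun_prop
    exact (ContinuousAt.comp (f := fun z : (Fin d → 𝕜) × (Fin d → 𝕜) =>
        (((M0, 0), z) : (Matrix (Fin d) (Fin d) 𝕜 × Matrix (Fin d) (Fin d) 𝕜) ×
          ((Fin d → 𝕜) × (Fin d → 𝕜)))) (hq z hz) h3).continuousWithinAt
  obtain ⟨c, hc, hcD'⟩ := hDc.exists_forall_le' (a := 0) hcD (fun z hz => by
    rw [add_zero]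
    exact h2 _ (hav z hz).1 (hav z hz).2.1 _ (hav z hz).2.2)
  refine ⟨c / 2, by positivity, ?_⟩
  have key : ∀ᶠ y in nhds ((M0, 0) : Matrix (Fin d) (Fin d) 𝕜 × Matrix (Fin d) (Fin d) 𝕜),
      ∀ z ∈ D, y.1 *ᵥ z.1 ∈ K ∧
        c / 2 < RCLike.re (z.2 ⬝ᵥ ((Y + y.2) *ᵥ (y.1 *ᵥ z.1)) / z.2 ⬝ᵥ (y.1 *ᵥ z.1)) := by
    refine hDc.eventually_forall_of_forall_eventually fun z hz => ?_
    have h4 := hc3.continuousAt.eventually_mem (x := ((M0, 0), z))
      (hK.isOpen.mem_nhds (h1 _ (hav z hz).1 (hav z hz).2.1))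
    have h5 := (hq z hz).eventually_mem (isOpen_Ioi.mem_nhds
      (show c / 2 < _ from (half_lt_self hc).trans_le (hcD' z hz)))
    filter_upwards [h4, h5] with w hw1 hw2
    exact ⟨hw1, hw2⟩
  rw [nhds_prod_eq] at key
  filter_upwards [key] with y hy x hx hx0 ψ hψ
  have hψ0 := hψ.ne_zero hK
  obtain ⟨a1, a2⟩ := norm_unit hx0
  obtain ⟨b1, b2⟩ := norm_unit hψ0
  obtain ⟨e1, e2⟩ := hy (((‖x‖⁻¹ : ℝ) : 𝕜) • x, ((‖ψ‖⁻¹ : ℝ) : 𝕜) • ψ)
    ⟨⟨hK.smul_closure hx a1, a2⟩, Or.inr (hψ.smul b1), b2⟩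
  constructor
  · have := hK.smul _ e1 _ (inv_ne_zero a1)
    simp only [Matrix.mulVec_smul, smul_smul, inv_mul_cancel₀ a1, one_smul] at this
    exact this
  · simp only [Matrix.mulVec_smul, smul_dotProduct, dotProduct_smul, smul_eq_mul] at e2
    rw [mul_div_mul_left _ _ a1, mul_div_mul_left _ _ b1] at e2
    exact e2

lemma IsChart.near_maps (hK : IsChart K) {M0 : Matrix (Fin d) (Fin d) 𝕜} (h1 : MapsIn K M0) :
    ∀ᶠ z : Matrix (Fin d) (Fin d) 𝕜 × Matrix (Fin d) (Fin d) 𝕜 in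
      nhds M0 ×ˢ nhds 1, ∀ x ∈ closure K, x ≠ 0 → z.2 *ᵥ (z.1 *ᵥ x) ∈ K := by
  have key : ∀ᶠ y in nhds ((M0, 1) : Matrix (Fin d) (Fin d) 𝕜 × Matrix (Fin d) (Fin d) 𝕜),
      ∀ x ∈ closure K ∩ Metric.sphere (0 : Fin d → 𝕜) 1, y.2 *ᵥ (y.1 *ᵥ x) ∈ K := by
    refine hK.compact1.eventually_forall_of_forall_eventually fun x hx => ?_
    have hc : Continuous fun w : (Matrix (Fin d) (Fin d) 𝕜 × Matrix (Fin d) (Fin d) 𝕜) ×
        (Fin d → 𝕜) => w.1.2 *ᵥ (w.1.1 *ᵥ w.2) :=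
      Continuous.matrix_mulVec (by fun_prop) (Continuous.matrix_mulVec (by fun_prop) (by fun_prop))
    refine hc.continuousAt.eventually_mem (hK.isOpen.mem_nhds ?_)
    simp only [Matrix.one_mulVec]
    exact h1 x hx.1 (sphere_ne hx.2)
  rw [nhds_prod_eq] at key
  filter_upwards [key] with y hy x hx hx0
  obtain ⟨a1, a2⟩ := norm_unit hx0
  have := hK.smul _ (hy _ ⟨hK.smul_closure hx a1, a2⟩) _ (inv_ne_zero a1)
  simp only [Matrix.mulVec_smul, smul_smul, inv_mul_cancel₀ a1, one_smul] at this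
  exact this

lemma affine_bound {a b : 𝕜} {ε : ℝ} (h : ∀ z : 𝕜, ‖z‖ < ε → a + z * b ≠ 0) :
    ε * ‖b‖ ≤ ‖a‖ := by
  by_contra hcon
  push Not at hcon
  have hb : b ≠ 0 := by
    rintro rfl
    rw [norm_zero, mul_zero] at hcon
    exact absurd hcon (not_lt.2 (norm_nonneg _))
  have hb' : 0 < ‖b‖ := norm_pos_iff.2 hb
  refine h (-(a / b)) ?_ ?_
  · rw [norm_neg, norm_div, div_lt_iff₀ hb']
    exact hcon
  · rw [neg_mul, div_mul_cancel₀ _ hb, add_neg_cancel]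

/-- a matrix that maps `K` into itself is controlled by one of its coefficients -/
lemma IsChart.bound (hK : IsChart K) {A : Matrix (Fin d) (Fin d) 𝕜} (hA : MapsIn K A) :
    ∃ x0 ∈ K, ∃ ψ0, Avoids K ψ0 ∧ ∃ B : ℝ, 0 ≤ B ∧ ∀ M : Matrix (Fin d) (Fin d) 𝕜,
      (∀ x ∈ K, M *ᵥ x ∈ K) → S M ≤ B * ‖ψ0 ⬝ᵥ (M *ᵥ x0)‖ := by
  obtain ⟨x0, hx0⟩ := hK.nonempty
  obtain ⟨ψ, hψ⟩ := hK.avoids
  have hopen : ∀ᶠ ψ' in nhds (ψ ᵥ* A), Avoids K ψ' := by
    have key : ∀ᶠ ψ' in nhds (ψ ᵥ* A), ∀ x ∈ closure K ∩ Metric.sphere (0 : Fin d → 𝕜) 1,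
        ψ' ⬝ᵥ x ≠ 0 := by
      refine hK.compact1.eventually_forall_of_forall_eventually fun x hx => ?_
      have hc : Continuous fun w : (Fin d → 𝕜) × (Fin d → 𝕜) => w.1 ⬝ᵥ w.2 :=
        Continuous.dotProduct (by fun_prop) (by fun_prop)
      refine hc.continuousAt.eventually_ne ?_
      simp only
      rw [← Matrix.dotProduct_mulVec]
      exact hψ _ (hA x hx.1 (sphere_ne hx.2))
    filter_upwards [key] with ψ' hψ' x hx h0
    obtain ⟨a1, a2⟩ := norm_unit (hK.ne_zero hx)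
    refine hψ' _ ⟨hK.smul_closure (subset_closure hx) a1, a2⟩ ?_
    rw [dotProduct_smul, h0, smul_zero]
  set ψ0 := ψ ᵥ* A with hψ0
  have hE' : ∀ i : Fin d, ∃ ε : ℝ, 0 < ε ∧ ∀ z : 𝕜, ‖z‖ < ε →
      Avoids K (ψ0 + z • (Pi.single i (1 : 𝕜) : Fin d → 𝕜)) := by
    intro i
    have hc : Continuous fun z : 𝕜 => ψ0 + z • (Pi.single i (1 : 𝕜) : Fin d → 𝕜) := by fun_prop
    have h1 : ∀ᶠ z in nhds (0 : 𝕜), Avoids K (ψ0 + z • (Pi.single i (1 : 𝕜) : Fin d → 𝕜)) := by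
      have := hc.tendsto (0 : 𝕜)
      simp only [zero_smul, add_zero] at this
      exact this.eventually hopen
    obtain ⟨ε, hε, h2⟩ := Metric.eventually_nhds_iff.1 h1
    exact ⟨ε, hε, fun z hz => h2 (by simpa using hz)⟩
  have hE : ∀ j : Fin d, ∃ ε : ℝ, 0 < ε ∧ ∀ z : 𝕜, ‖z‖ < ε →
      x0 + z • (Pi.single j (1 : 𝕜) : Fin d → 𝕜) ∈ K := by
    intro j
    have hc : Continuous fun z : 𝕜 => x0 + z • (Pi.single j (1 : 𝕜) : Fin d → 𝕜) := by fun_prop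
    have h1 : ∀ᶠ z in nhds (0 : 𝕜), x0 + z • (Pi.single j (1 : 𝕜) : Fin d → 𝕜) ∈ K :=
      hc.continuousAt.eventually_mem (hK.isOpen.mem_nhds (by simpa using hx0))
    obtain ⟨ε, hε, h2⟩ := Metric.eventually_nhds_iff.1 h1
    exact ⟨ε, hε, fun z hz => h2 (by simpa using hz)⟩
  choose ε' hε' hε'1 using hE'
  choose ε hε hε1 using hE
  refine ⟨x0, hx0, ψ0, hopen.self_of_nhds, ∑ i : Fin d, ∑ j : Fin d, 5 / (ε j * ε' i),
    Finset.sum_nonneg fun i _ => Finset.sum_nonneg fun j _ =>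
      div_nonneg (by norm_num) (mul_pos (hε j) (hε' i)).le, fun M hM => ?_⟩
  have hα : ∀ i, ∀ x ∈ K, ε' i * ‖(M *ᵥ x) i‖ ≤ ‖ψ0 ⬝ᵥ (M *ᵥ x)‖ := by
    intro i x hx
    refine affine_bound fun z hz => ?_
    have := hε'1 i z hz _ (hM x hx)
    rwa [add_dotProduct, smul_dotProduct, single_dotProduct, smul_eq_mul, one_mul] at this
  unfold S
  rw [Finset.sum_mul]
  refine Finset.sum_le_sum fun i _ => ?_
  rw [Finset.sum_mul]
  refine Finset.sum_le_sum fun j _ => ?_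
  have hβ : ε j * ‖ψ0 ⬝ᵥ (M *ᵥ Pi.single j (1 : 𝕜))‖ ≤ ‖ψ0 ⬝ᵥ (M *ᵥ x0)‖ := by
    refine affine_bound fun z hz => ?_
    have := hopen.self_of_nhds _ (hM _ (hε1 j z hz))
    rwa [Matrix.mulVec_add, Matrix.mulVec_smul, dotProduct_add, dotProduct_smul,
      smul_eq_mul] at this
  set z : 𝕜 := ((ε j / 2 : ℝ) : 𝕜) with hz
  have hzn : ‖z‖ = ε j / 2 := by
    rw [hz, RCLike.norm_ofReal, abs_of_pos (half_pos (hε j))]
  have hx1 := hε1 j z (by rw [hzn]; exact half_lt_self (hε j))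
  have hγ := hα i _ hx1
  have hγ0 := hα i _ hx0
  rw [Matrix.mulVec_add, Matrix.mulVec_smul, dotProduct_add, dotProduct_smul, smul_eq_mul] at hγ
  have h1 : ‖ψ0 ⬝ᵥ (M *ᵥ x0) + z * (ψ0 ⬝ᵥ (M *ᵥ Pi.single j (1 : 𝕜)))‖
      ≤ 3 / 2 * ‖ψ0 ⬝ᵥ (M *ᵥ x0)‖ := by
    refine (norm_add_le _ _).trans ?_
    rw [norm_mul, hzn]
    linarith
  have h2 : (ε j / 2) * ‖M i j‖ ≤ ‖(M *ᵥ x0 + z • (M *ᵥ Pi.single j (1 : 𝕜))) i‖
      + ‖(M *ᵥ x0) i‖ := by
    have e : z * M i j = (M *ᵥ x0 + z • (M *ᵥ Pi.single j (1 : 𝕜))) i - (M *ᵥ x0) i := by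
      simp [Pi.add_apply, Pi.smul_apply]
    have e2 : (ε j / 2) * ‖M i j‖ = ‖z * M i j‖ := by rw [norm_mul, hzn]
    rw [e2, e]
    exact norm_sub_le _ _
  have hεi := hε' i
  have hεj := hε j
  have h3 : ε' i * ((ε j / 2) * ‖M i j‖) ≤ 5 / 2 * ‖ψ0 ⬝ᵥ (M *ᵥ x0)‖ := by
    calc ε' i * ((ε j / 2) * ‖M i j‖)
        ≤ ε' i * (‖(M *ᵥ x0 + z • (M *ᵥ Pi.single j (1 : 𝕜))) i‖ + ‖(M *ᵥ x0) i‖) :=
          mul_le_mul_of_nonneg_left h2 hεi.le
      _ ≤ _ := by linarith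
  rw [div_mul_eq_mul_div, le_div_iff₀ (mul_pos hεj hεi)]
  linarith

end cone

section proximal

variable {𝕜 : Type*} [RCLike 𝕜] {d n : ℕ}

/-- the union of thin open cones around the lines of the vectors `v k` -/
def cones (v : Fin n → Fin d → 𝕜) (δ : ℝ) : Set (Fin d → 𝕜) :=
  {x | ∃ k, ∃ c : 𝕜, c ≠ 0 ∧ ‖x - c • v k‖ < δ * ‖c‖}

lemma dot_norm_le (ψ x : Fin d → 𝕜) : ‖ψ ⬝ᵥ x‖ ≤ (∑ i, ‖ψ i‖) * ‖x‖ := by
  rw [Finset.sum_mul]
  refine (norm_sum_le (Finset.univ : Finset (Fin d)) fun i => ψ i * x i).trans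
    (Finset.sum_le_sum fun i _ => ?_)
  rw [norm_mul]
  exact mul_le_mul_of_nonneg_left (norm_le_pi_norm x i) (norm_nonneg _)

lemma isChart_cones (v φ : Fin n → Fin d → 𝕜) (hn : 0 < n) {δ : ℝ} (hδ : 0 < δ)
    (h : ∀ k l, (∑ i, ‖φ k i‖) * δ < ‖φ k ⬝ᵥ v l‖) : IsChart (cones v δ) := by
  refine ⟨?_, ?_, ?_, ?_⟩
  · have e : cones v δ = ⋃ k, ⋃ c : 𝕜, ⋃ _ : c ≠ 0, {x | ‖x - c • v k‖ < δ * ‖c‖} := by
      ext x
      simp only [cones, Set.mem_ofPred_eq, Set.mem_iUnion, exists_prop]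
    rw [e]
    exact isOpen_iUnion fun k => isOpen_iUnion fun c => isOpen_iUnion fun _ =>
      isOpen_lt (by fun_prop) continuous_const
  · exact ⟨v ⟨0, hn⟩, ⟨0, hn⟩, 1, one_ne_zero, by simpa using hδ⟩
  · rintro x ⟨k, c, hc, hx⟩ a ha
    refine ⟨k, a * c, mul_ne_zero ha hc, ?_⟩
    rw [mul_smul, ← smul_sub, norm_smul, norm_mul, mul_left_comm]
    exact mul_lt_mul_of_pos_left hx (norm_pos_iff.2 ha)
  · refine ⟨φ ⟨0, hn⟩, ?_⟩
    rintro x ⟨k, c, hc, hx⟩ h0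
    have h1 := h ⟨0, hn⟩ k
    have h2 : φ ⟨0, hn⟩ ⬝ᵥ (x - c • v k) = -(c * (φ ⟨0, hn⟩ ⬝ᵥ v k)) := by
      rw [dotProduct_sub, h0, dotProduct_smul, smul_eq_mul, zero_sub]
    have h3 := dot_norm_le (φ ⟨0, hn⟩) (x - c • v k)
    rw [h2, norm_neg, norm_mul] at h3
    have hc' : 0 < ‖c‖ := norm_pos_iff.2 hc
    have h4 : (∑ i, ‖φ ⟨0, hn⟩ i‖) * ‖x - c • v k‖ ≤ (∑ i, ‖φ ⟨0, hn⟩ i‖) * (δ * ‖c‖) :=
      mul_le_mul_of_nonneg_left hx.le (Finset.sum_nonneg fun _ _ => norm_nonneg _)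
    have h5 : ‖c‖ * ((∑ i, ‖φ ⟨0, hn⟩ i‖) * δ) < ‖c‖ * ‖φ ⟨0, hn⟩ ⬝ᵥ v k‖ :=
      mul_lt_mul_of_pos_left h1 hc'
    linarith

/-- on the closure of the cones all `φ l` are bounded from below -/
lemma cones_lower (v φ : Fin n → Fin d → 𝕜) {δ κ : ℝ} (hκ : 0 ≤ κ)
    (h : ∀ k l, (∑ i, ‖φ k i‖) * δ + κ * (‖v l‖ + δ) ≤ ‖φ k ⬝ᵥ v l‖) :
    ∀ x ∈ closure (cones v δ), ∀ k, κ * ‖x‖ ≤ ‖φ k ⬝ᵥ x‖ := by
  intro x hx k
  have hcl : IsClosed {x : Fin d → 𝕜 | κ * ‖x‖ ≤ ‖φ k ⬝ᵥ x‖} := by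
    have hd : Continuous fun x : Fin d → 𝕜 => φ k ⬝ᵥ x :=
      Continuous.dotProduct continuous_const continuous_id
    exact isClosed_le (by fun_prop) hd.norm
  refine closure_minimal ?_ hcl hx
  rintro y ⟨l, c, hc, hy⟩
  have hc' : 0 ≤ ‖c‖ := norm_nonneg _
  have h1 : ‖c‖ * ‖φ k ⬝ᵥ v l‖ ≤ ‖φ k ⬝ᵥ y‖ + (∑ i, ‖φ k i‖) * (δ * ‖c‖) := by
    have e : c * (φ k ⬝ᵥ v l) = φ k ⬝ᵥ y - φ k ⬝ᵥ (y - c • v l) := by
      rw [dotProduct_sub, dotProduct_smul, smul_eq_mul, sub_sub_cancel]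
    rw [← norm_mul, e]
    refine (norm_sub_le _ _).trans (add_le_add_right ?_ _)
    exact (dot_norm_le _ _).trans (mul_le_mul_of_nonneg_left hy.le
      (Finset.sum_nonneg fun _ _ => norm_nonneg _))
  have h2 : ‖y‖ ≤ ‖c‖ * ‖v l‖ + δ * ‖c‖ := by
    have := norm_add_le (c • v l) (y - c • v l)
    rw [add_sub_cancel, norm_smul] at this
    linarith
  have h3 := mul_le_mul_of_nonneg_left (h k l) hc'
  have h4 := mul_le_mul_of_nonneg_left h2 hκ
  have h5 : κ * ‖y‖ ≤ ‖φ k ⬝ᵥ y‖ := by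
    calc κ * ‖y‖ ≤ κ * (‖c‖ * ‖v l‖ + δ * ‖c‖) := h4
      _ = ‖c‖ * ((∑ i, ‖φ k i‖) * δ + κ * (‖v l‖ + δ)) - (∑ i, ‖φ k i‖) * (δ * ‖c‖) := by ring
      _ ≤ ‖c‖ * ‖φ k ⬝ᵥ v l‖ - (∑ i, ‖φ k i‖) * (δ * ‖c‖) := by linarith
      _ ≤ _ := by linarith
  exact h5

/-- a functional that avoids the cones is controlled by its value at `v k` -/
lemma avoids_bound (v : Fin n → Fin d → 𝕜) {δ : ℝ} (hδ : 0 < δ) {ψ : Fin d → 𝕜}
    (hψ : Avoids (cones v δ) ψ) (k : Fin n) (y : Fin d → 𝕜) :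
    δ * ‖ψ ⬝ᵥ y‖ ≤ ‖ψ ⬝ᵥ v k‖ * ‖y‖ := by
  rcases eq_or_ne y 0 with h | h
  · simp [h]
  · have hy : 0 < ‖y‖ := norm_pos_iff.2 h
    have h1 : (δ / ‖y‖) * ‖ψ ⬝ᵥ y‖ ≤ ‖ψ ⬝ᵥ v k‖ := by
      refine affine_bound fun z hz => ?_
      have h2 : v k + z • y ∈ cones v δ := by
        refine ⟨k, 1, one_ne_zero, ?_⟩
        rw [one_smul, add_sub_cancel_left, norm_smul, norm_one, mul_one]
        rwa [lt_div_iff₀ hy] at hz
      have := hψ _ h2
      rwa [dotProduct_add, dotProduct_smul, smul_eq_mul] at this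
    calc δ * ‖ψ ⬝ᵥ y‖ = ((δ / ‖y‖) * ‖ψ ⬝ᵥ y‖) * ‖y‖ := by field_simp
      _ ≤ _ := mul_le_mul_of_nonneg_right h1 hy.le

/-- Matrices close to multiples of `v_k φ_k`, where no `φ_k` vanishes at any `v_l`, satisfy the
conditions on a contracting tuple, if `v_k` is an eigenvector of `Y_k` whose eigenvalue has
positive real part. -/
theorem near_rank_one (v φ : Fin n → Fin d → 𝕜) (hn : 0 < n) (hvφ : ∀ k l, φ k ⬝ᵥ v l ≠ 0)
    (Y : Fin n → Matrix (Fin d) (Fin d) 𝕜) (lam : Fin n → 𝕜)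
    (hY : ∀ k, Y k *ᵥ v k = lam k • v k) (hlam : ∀ k, 0 < RCLike.re (lam k)) :
    ∃ ε : ℝ, 0 < ε ∧ ∃ K : Set (Fin d → 𝕜), IsChart K ∧
      ∀ (M : Matrix (Fin d) (Fin d) 𝕜) (k : Fin n) (τ : 𝕜), τ ≠ 0 →
        (∀ x, ‖M *ᵥ x - (τ * (φ k ⬝ᵥ x)) • v k‖ ≤ ε * ‖τ‖ * ‖x‖) →
        MapsIn K M ∧ PushedBy K (Y k) M := by
  have hne : Nonempty (Fin n) := ⟨⟨0, hn⟩⟩
  -- a common lower bound
  obtain ⟨q, hq, hq1⟩ : ∃ q : ℝ, 0 < q ∧ ∀ k l, q ≤ ‖φ k ⬝ᵥ v l‖ := by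
    obtain ⟨z0, hz0⟩ := Finite.exists_min fun z : Fin n × Fin n => ‖φ z.1 ⬝ᵥ v z.2‖
    exact ⟨_, norm_pos_iff.2 (hvφ _ _), fun k l => hz0 (k, l)⟩
  obtain ⟨P, hP, hP1, hP2, hP3, hP4⟩ : ∃ P : ℝ, 1 ≤ P ∧ (∀ k, ∑ i, ‖φ k i‖ ≤ P) ∧
      (∀ k, ‖v k‖ ≤ P) ∧ (∀ k, ‖lam k‖ ≤ P) ∧ ∀ k, S (Y k) ≤ P := by
    have n1 : ∀ k, ∑ i, ‖φ k i‖ ≤ ∑ k, ∑ i, ‖φ k i‖ := fun k =>
      Finset.single_le_sum (f := fun k => ∑ i, ‖φ k i‖)
        (fun _ _ => Finset.sum_nonneg fun _ _ => norm_nonneg _) (Finset.mem_univ k)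
    have n2 : ∀ k, ‖v k‖ ≤ ∑ k, ‖v k‖ := fun k =>
      Finset.single_le_sum (f := fun k => ‖v k‖) (fun _ _ => norm_nonneg _) (Finset.mem_univ k)
    have n3 : ∀ k, ‖lam k‖ ≤ ∑ k, ‖lam k‖ := fun k =>
      Finset.single_le_sum (f := fun k => ‖lam k‖) (fun _ _ => norm_nonneg _) (Finset.mem_univ k)
    have n4 : ∀ k, S (Y k) ≤ ∑ k, S (Y k) := fun k =>
      Finset.single_le_sum (f := fun k => S (Y k)) (fun _ _ => S_nonneg _) (Finset.mem_univ k)
    have m1 : 0 ≤ ∑ k, ∑ i, ‖φ k i‖ :=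
      Finset.sum_nonneg fun _ _ => Finset.sum_nonneg fun _ _ => norm_nonneg _
    have m2 : 0 ≤ ∑ k, ‖v k‖ := Finset.sum_nonneg fun _ _ => norm_nonneg _
    have m3 : 0 ≤ ∑ k, ‖lam k‖ := Finset.sum_nonneg fun _ _ => norm_nonneg _
    have m4 : 0 ≤ ∑ k, S (Y k) := Finset.sum_nonneg fun _ _ => S_nonneg _
    exact ⟨1 + (∑ k, ∑ i, ‖φ k i‖) + (∑ k, ‖v k‖) + (∑ k, ‖lam k‖) + ∑ k, S (Y k),
      by linarith, fun k => by linarith [n1 k], fun k => by linarith [n2 k],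
      fun k => by linarith [n3 k], fun k => by linarith [n4 k]⟩
  obtain ⟨b, hb, hb1⟩ : ∃ b : ℝ, 0 < b ∧ ∀ k, b ≤ RCLike.re (lam k) := by
    obtain ⟨k0, hk0⟩ := Finite.exists_min fun k => RCLike.re (lam k)
    exact ⟨_, hlam k0, hk0⟩
  have hP0 : 0 < P := by linarith
  set δ : ℝ := min 1 (q / (4 * P)) with hδ
  have hδ0 : 0 < δ := lt_min one_pos (by positivity)
  have hδ1 : δ ≤ 1 := min_le_left _ _
  have hδ2 : P * δ ≤ q / 4 := by
    have : δ ≤ q / (4 * P) := min_le_right _ _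
    calc P * δ ≤ P * (q / (4 * P)) := mul_le_mul_of_nonneg_left this hP0.le
      _ = q / 4 := by field_simp
  set κ : ℝ := q / (4 * (P + 1)) with hκ
  have hκ0 : 0 < κ := by positivity
  have hκ1 : κ * (P + 1) = q / 4 := by rw [hκ]; field_simp
  have hK : IsChart (cones v δ) := by
    refine isChart_cones v φ hn hδ0 fun k l => ?_
    have h1 := mul_le_mul_of_nonneg_right (hP1 k) hδ0.le
    have h2 := hq1 k l
    linarith
  have hlow : ∀ x ∈ closure (cones v δ), ∀ k, κ * ‖x‖ ≤ ‖φ k ⬝ᵥ x‖ := by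
    refine cones_lower v φ hκ0.le fun k l => ?_
    have h1 := mul_le_mul_of_nonneg_right (hP1 k) hδ0.le
    have h2 := hq1 k l
    have h3 : κ * (‖v l‖ + δ) ≤ κ * (P + 1) :=
      mul_le_mul_of_nonneg_left (add_le_add (hP2 l) hδ1) hκ0.le
    linarith
  -- the size of the error
  set θ : ℝ := min (δ / 2) (min (δ / 2) (δ * b / (4 * P * (1 + P)))) with hθ
  have hθ0 : 0 < θ := lt_min (by positivity) (lt_min (by positivity) (by positivity))
  have hθ1 : θ ≤ δ / 2 := min_le_left _ _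
  have hθ2 : θ * (4 * P * (1 + P)) ≤ δ * b := by
    have h1 : θ ≤ δ * b / (4 * P * (1 + P)) := (min_le_right _ _).trans (min_le_right _ _)
    rwa [le_div_iff₀ (by positivity)] at h1
  refine ⟨θ * κ, by positivity, cones v δ, hK, fun M k τ hτ hM => ?_⟩
  have hτ0 : 0 < ‖τ‖ := norm_pos_iff.2 hτ
  -- the image is `c (v k + e)` with small `e`
  have hform : ∀ x ∈ closure (cones v δ), x ≠ 0 → ∃ (c : 𝕜) (e : Fin d → 𝕜), c ≠ 0 ∧
      M *ᵥ x = c • (v k + e) ∧ ‖e‖ ≤ θ := by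
    intro x hx hx0
    have hxn : 0 < ‖x‖ := norm_pos_iff.2 hx0
    have h1 := hlow x hx k
    have h2 : 0 < ‖φ k ⬝ᵥ x‖ := lt_of_lt_of_le (by positivity) h1
    have hc : τ * (φ k ⬝ᵥ x) ≠ 0 := mul_ne_zero hτ (norm_pos_iff.1 h2)
    refine ⟨τ * (φ k ⬝ᵥ x), (τ * (φ k ⬝ᵥ x))⁻¹ • (M *ᵥ x - (τ * (φ k ⬝ᵥ x)) • v k), hc, ?_, ?_⟩
    · rw [smul_add, smul_smul, mul_inv_cancel₀ hc, one_smul, add_sub_cancel]
    · rw [norm_smul, norm_inv, norm_mul, inv_mul_le_iff₀ (by positivity)]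
      refine (hM x).trans ?_
      calc θ * κ * ‖τ‖ * ‖x‖ = ‖τ‖ * θ * (κ * ‖x‖) := by ring
        _ ≤ ‖τ‖ * θ * ‖φ k ⬝ᵥ x‖ := mul_le_mul_of_nonneg_left h1 (by positivity)
        _ = ‖τ‖ * ‖φ k ⬝ᵥ x‖ * θ := by ring
  refine ⟨fun x hx hx0 => ?_, fun x hx hx0 ψ hψ => ?_⟩
  · obtain ⟨c, e, hc, he, he1⟩ := hform x hx hx0
    rw [he]
    refine hK.smul _ ⟨k, 1, one_ne_zero, ?_⟩ c hc
    rw [one_smul, add_sub_cancel_left, norm_one, mul_one]
    linarith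
  · obtain ⟨c, e, hc, he, he1⟩ := hform x hx hx0
    have hvk : v k ∈ cones v δ := ⟨k, 1, one_ne_zero, by simpa using hδ0⟩
    have hw : ψ ⬝ᵥ v k ≠ 0 := hψ _ hvk
    have hw0 : 0 < ‖ψ ⬝ᵥ v k‖ := norm_pos_iff.2 hw
    have h1 : ‖ψ ⬝ᵥ e‖ * δ ≤ ‖ψ ⬝ᵥ v k‖ * θ := by
      have := avoids_bound v hδ0 hψ k e
      have h2 := mul_le_mul_of_nonneg_left he1 hw0.le
      linarith
    have h2 : ‖ψ ⬝ᵥ (Y k *ᵥ e)‖ * δ ≤ ‖ψ ⬝ᵥ v k‖ * (P * θ) := by
      have h3 := avoids_bound v hδ0 hψ k (Y k *ᵥ e)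
      have h4 : ‖Y k *ᵥ e‖ ≤ P * θ := by
        refine le_trans ?_ (mul_le_mul (hP4 k) he1 (norm_nonneg _) hP0.le)
        refine (pi_norm_le_iff_of_nonneg (mul_nonneg (S_nonneg _) (norm_nonneg _))).2 fun i => ?_
        calc ‖(Y k *ᵥ e) i‖ ≤ (∑ j, ‖Y k i j‖) * ‖e‖ := dot_norm_le (fun j => Y k i j) e
          _ ≤ S (Y k) * ‖e‖ := mul_le_mul_of_nonneg_right
              (Finset.single_le_sum (f := fun i => ∑ j, ‖Y k i j‖)
                (fun _ _ => Finset.sum_nonneg fun _ _ => norm_nonneg _) (Finset.mem_univ i))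
              (norm_nonneg _)
      have h5 := mul_le_mul_of_nonneg_left h4 hw0.le
      linarith
    set a : 𝕜 := ψ ⬝ᵥ (Y k *ᵥ e) / ψ ⬝ᵥ v k with ha
    set w : 𝕜 := ψ ⬝ᵥ e / ψ ⬝ᵥ v k with hwd
    have ha1 : ‖a‖ * δ ≤ P * θ := by
      rw [ha, norm_div, div_mul_eq_mul_div, div_le_iff₀ hw0]
      linarith
    have hw1 : ‖w‖ * δ ≤ θ := by
      rw [hwd, norm_div, div_mul_eq_mul_div, div_le_iff₀ hw0]
      linarith
    have hw2 : ‖w‖ ≤ 1 / 2 := by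
      have : ‖w‖ * δ ≤ 1 / 2 * δ := by linarith
      exact le_of_mul_le_mul_right this hδ0
    have hquot : ψ ⬝ᵥ (Y k *ᵥ (M *ᵥ x)) / ψ ⬝ᵥ (M *ᵥ x) = (lam k + a) / (1 + w) := by
      have e1 : ψ ⬝ᵥ (Y k *ᵥ (M *ᵥ x)) = (c * (ψ ⬝ᵥ v k)) * (lam k + a) := by
        rw [he, Matrix.mulVec_smul, Matrix.mulVec_add, hY, dotProduct_smul, dotProduct_add,
          dotProduct_smul, smul_eq_mul, smul_eq_mul, ha]
        field_simp
      have e2 : ψ ⬝ᵥ (M *ᵥ x) = (c * (ψ ⬝ᵥ v k)) * (1 + w) := by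
        rw [he, dotProduct_smul, dotProduct_add, smul_eq_mul, hwd]
        field_simp
      rw [e1, e2, mul_div_mul_left _ _ (mul_ne_zero hc hw)]
    rw [hquot]
    -- positivity of the real part
    have h1w : (1 + w) ≠ 0 := by
      intro h0
      have : w = -1 := by linear_combination h0
      rw [this, norm_neg, norm_one] at hw2
      norm_num at hw2
    have hre : RCLike.re ((lam k + a) / (1 + w))
        = RCLike.re (lam k) + RCLike.re ((a - lam k * w) / (1 + w)) := by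
      rw [← map_add]
      congr 1
      field_simp
      ring
    rw [hre]
    have hden : 1 / 2 ≤ ‖1 + w‖ := by
      have h3 : ‖(1 : 𝕜)‖ ≤ ‖1 + w‖ + ‖w‖ := by
        have := norm_sub_le (1 + w) w
        rwa [add_sub_cancel_right] at this
      rw [norm_one] at h3
      linarith
    have hnum : ‖a - lam k * w‖ * δ ≤ 2 * P * θ := by
      have h3 : ‖a - lam k * w‖ ≤ ‖a‖ + P * ‖w‖ := by
        refine (norm_sub_le _ _).trans (add_le_add_right ?_ _)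
        rw [norm_mul]
        exact mul_le_mul_of_nonneg_right (hP3 k) (norm_nonneg _)
      have h4 := mul_le_mul_of_nonneg_right h3 hδ0.le
      have h5 := mul_le_mul_of_nonneg_left hw1 hP0.le
      linarith
    have hsmall : ‖(a - lam k * w) / (1 + w)‖ < b := by
      rw [norm_div, div_lt_iff₀ (norm_pos_iff.2 h1w)]
      have h3 : ‖a - lam k * w‖ * δ < (b / 2) * δ := by
        have hPPθ : 0 < P * P * θ := by positivity
        have e : θ * (4 * P * (1 + P)) = 4 * (P * θ) + 4 * (P * P * θ) := by ring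
        rw [e] at hθ2
        linarith
      have h4 := lt_of_mul_lt_mul_right h3 hδ0.le
      nlinarith
    have h6 : -‖(a - lam k * w) / (1 + w)‖ ≤ RCLike.re ((a - lam k * w) / (1 + w)) :=
      (abs_le.1 (RCLike.abs_re_le_norm _)).1
    have := hb1 k
    linarith

end proximal

/-- The norms of the products along orbits of the two functions are comparable outside a set of
small measure, uniformly in the length. -/
def Comp {X G 𝕜 : Type*} [MeasurableSpace X] (μ : Measure X) (T : X → X) [Group G]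
    [NormedField 𝕜] {d n : ℕ} (ρ : G →* Matrix (Fin d) (Fin d) 𝕜) (ι : X → Fin n)
    (g h : Fin n → G) : Prop :=
  ∀ q : ℕ, ∃ K : ℕ, ∀ m : ℕ,
    μ {x | (K : ℝ) * S (ρ (cyc T (fun x => h (ι x)) m x)) < S (ρ (cyc T (fun x => g (ι x)) m x)) ∨
      (K : ℝ) * S (ρ (cyc T (fun x => g (ι x)) m x)) < S (ρ (cyc T (fun x => h (ι x)) m x))}
      ≤ ENNReal.ofReal (1 / ((q : ℝ) + 1))

lemma cyc_map {X G 𝕜 : Type*} [RCLike 𝕜] [Group G] (T : X → X) {d : ℕ}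
    (ρ : G →* Matrix (Fin d) (Fin d) 𝕜) (φ : X → G) (m : ℕ) (x : X) :
    ρ (cyc T φ m x) = cyc T (fun x => ρ (φ x)) m x := by
  induction m with
  | zero => simp [cyc]
  | succ m ih => rw [cyc, cyc, ← ih, ← map_mul]

section growth

variable {𝕜 : Type*} [RCLike 𝕜] {d : ℕ} {K : Set (Fin d → 𝕜)}

lemma maps_cyc {X : Type*} (T : X → X) {A : X → Matrix (Fin d) (Fin d) 𝕜}
    (h : ∀ x, ∀ y ∈ K, A x *ᵥ y ∈ K) (m : ℕ) (x : X) : ∀ y ∈ K, cyc T A m x *ᵥ y ∈ K := by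
  induction m with
  | zero => intro y hy; simpa [cyc] using hy
  | succ m ih =>
    intro y hy
    rw [cyc, ← Matrix.mulVec_mulVec]
    exact h _ _ (ih y hy)

/-- the factors are changed one after the other -/
lemma step_growth {X : Type*} (T : X → X) {A B : X → Matrix (Fin d) (Fin d) 𝕜} {r : ℝ}
    (hr : 0 ≤ r) (hA : ∀ x, ∀ y ∈ K, A x *ᵥ y ∈ K) (hB : ∀ x, ∀ y ∈ K, B x *ᵥ y ∈ K)
    (hAB : ∀ x, ∀ y ∈ K, ∀ ψ, Avoids K ψ → r * ‖ψ ⬝ᵥ (A x *ᵥ y)‖ ≤ ‖ψ ⬝ᵥ (B x *ᵥ y)‖)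
    (m : ℕ) (x : X) : ∀ y ∈ K, ∀ ψ, Avoids K ψ →
      r ^ m * ‖ψ ⬝ᵥ (cyc T A m x *ᵥ y)‖ ≤ ‖ψ ⬝ᵥ (cyc T B m x *ᵥ y)‖ := by
  induction m with
  | zero => intro y _ ψ _; simp [cyc]
  | succ m ih =>
    intro y hy ψ hψ
    have hψ' : Avoids K (ψ ᵥ* A (T^[m] x)) := by
      intro z hz
      rw [← Matrix.dotProduct_mulVec]
      exact hψ _ (hA _ z hz)
    have h1 := ih y hy _ hψ'
    rw [← Matrix.dotProduct_mulVec, ← Matrix.dotProduct_mulVec] at h1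
    have h2 := hAB (T^[m] x) _ (maps_cyc T hB m x y hy) ψ hψ
    rw [cyc, cyc, ← Matrix.mulVec_mulVec, ← Matrix.mulVec_mulVec, pow_succ]
    calc r ^ m * r * ‖ψ ⬝ᵥ (A (T^[m] x) *ᵥ (cyc T A m x *ᵥ y))‖
        = r * (r ^ m * ‖ψ ⬝ᵥ (A (T^[m] x) *ᵥ (cyc T A m x *ᵥ y))‖) := by ring
      _ ≤ r * ‖ψ ⬝ᵥ (A (T^[m] x) *ᵥ (cyc T B m x *ᵥ y))‖ := mul_le_mul_of_nonneg_left h1 hr
      _ ≤ _ := h2

lemma dot_le (ψ x : Fin d → 𝕜) (M : Matrix (Fin d) (Fin d) 𝕜) :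
    ‖ψ ⬝ᵥ (M *ᵥ x)‖ ≤ (∑ i, ‖ψ i‖) * (∑ j, ‖x j‖) * S M := by
  have hent : ∀ i, ‖(M *ᵥ x) i‖ ≤ (∑ j, ‖x j‖) * S M := by
    intro i
    calc ‖(M *ᵥ x) i‖ ≤ ∑ j, ‖M i j * x j‖ :=
          norm_sum_le (Finset.univ : Finset (Fin d)) fun j => M i j * x j
      _ ≤ ∑ j, ‖x j‖ * S M := Finset.sum_le_sum fun j _ => by
          rw [norm_mul, mul_comm]
          refine mul_le_mul_of_nonneg_left ?_ (norm_nonneg _)
          exact (Finset.single_le_sum (f := fun j => ‖M i j‖) (fun _ _ => norm_nonneg _)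
            (Finset.mem_univ j)).trans
            (Finset.single_le_sum (f := fun i => ∑ j, ‖M i j‖)
              (fun _ _ => Finset.sum_nonneg fun _ _ => norm_nonneg _) (Finset.mem_univ i))
      _ = (∑ j, ‖x j‖) * S M := by rw [Finset.sum_mul]
  calc ‖ψ ⬝ᵥ (M *ᵥ x)‖ ≤ ∑ i, ‖ψ i * (M *ᵥ x) i‖ :=
        norm_sum_le (Finset.univ : Finset (Fin d)) fun i => ψ i * (M *ᵥ x) i
    _ ≤ ∑ i, ‖ψ i‖ * ((∑ j, ‖x j‖) * S M) := Finset.sum_le_sum fun i _ => by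
        rw [norm_mul]
        exact mul_le_mul_of_nonneg_left (hent i) (norm_nonneg _)
    _ = (∑ i, ‖ψ i‖) * (∑ j, ‖x j‖) * S M := by rw [← Finset.sum_mul]; ring

lemma IsChart.growth (hK : IsChart K) {A0 : Matrix (Fin d) (Fin d) 𝕜} (hA0 : MapsIn K A0)
    {X : Type*} (T : X → X) {A B : X → Matrix (Fin d) (Fin d) 𝕜} {r : ℝ} (hr : 0 ≤ r)
    (hA : ∀ x, ∀ y ∈ K, A x *ᵥ y ∈ K) (hB : ∀ x, ∀ y ∈ K, B x *ᵥ y ∈ K)
    (hAB : ∀ x, ∀ y ∈ K, ∀ ψ, Avoids K ψ → r * ‖ψ ⬝ᵥ (A x *ᵥ y)‖ ≤ ‖ψ ⬝ᵥ (B x *ᵥ y)‖) :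
    ∃ Q : ℝ, 0 ≤ Q ∧ ∀ (m : ℕ) (x : X), r ^ m * S (cyc T A m x) ≤ Q * S (cyc T B m x) := by
  obtain ⟨x0, hx0, ψ0, hψ0, B0, hB0, hb⟩ := hK.bound hA0
  refine ⟨B0 * ((∑ i, ‖ψ0 i‖) * (∑ j, ‖x0 j‖)), mul_nonneg hB0 (mul_nonneg
    (Finset.sum_nonneg fun _ _ => norm_nonneg _) (Finset.sum_nonneg fun _ _ => norm_nonneg _)),
    fun m x => ?_⟩
  have h1 := hb _ (maps_cyc T hA m x)
  have h2 := step_growth T hr hA hB hAB m x x0 hx0 ψ0 hψ0
  have h3 := dot_le ψ0 x0 (cyc T B m x)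
  calc r ^ m * S (cyc T A m x) ≤ r ^ m * (B0 * ‖ψ0 ⬝ᵥ (cyc T A m x *ᵥ x0)‖) :=
        mul_le_mul_of_nonneg_left h1 (pow_nonneg hr m)
    _ = B0 * (r ^ m * ‖ψ0 ⬝ᵥ (cyc T A m x *ᵥ x0)‖) := by ring
    _ ≤ B0 * ((∑ i, ‖ψ0 i‖) * (∑ j, ‖x0 j‖) * S (cyc T B m x)) :=
        mul_le_mul_of_nonneg_left (h2.trans h3) hB0
    _ = _ := by ring

/-- near a tuple with the two properties, left multiplication by `1 + t (Y + small)` multiplies
the growth by a fixed factor -/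
lemma IsChart.uniform (hK : IsChart K) {n : ℕ} {Y : Fin n → Matrix (Fin d) (Fin d) 𝕜}
    (M0 : Fin n → Matrix (Fin d) (Fin d) 𝕜) (h1 : ∀ k, MapsIn K (M0 k))
    (h2 : ∀ k, PushedBy K (Y k) (M0 k)) (W : ℝ → Fin n → Matrix (Fin d) (Fin d) 𝕜)
    (hW : ∀ k, Filter.Tendsto (fun t => W t k) (nhdsWithin 0 (Set.Ioi 0)) (nhds 1))
    (hWY : ∀ k, Filter.Tendsto (fun t : ℝ => t⁻¹ • (W t k - 1)) (nhdsWithin 0 (Set.Ioi 0))
      (nhds (Y k))) :
    ∃ V : Set (Fin n → Matrix (Fin d) (Fin d) 𝕜), V ∈ nhds M0 ∧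
      ∀ᶠ t in nhdsWithin (0 : ℝ) (Set.Ioi 0), ∃ r : ℝ, 1 < r ∧ ∀ M ∈ V, ∀ k,
        MapsIn K (M k) ∧ (∀ y ∈ K, (W t k * M k) *ᵥ y ∈ K) ∧
        ∀ y ∈ K, ∀ ψ, Avoids K ψ → r * ‖ψ ⬝ᵥ (M k *ᵥ y)‖ ≤ ‖ψ ⬝ᵥ ((W t k * M k) *ᵥ y)‖ := by
  obtain ⟨ψ1, hψ1⟩ := hK.avoids
  choose c hc h3 using fun k => hK.near (h1 k) (h2 k)
  have h4 := fun k => hK.near_maps (h1 k)
  choose pa hpa pb hpb hp using fun k => Filter.eventually_prod_iff.1 (h3 k)
  choose qa hqa qb hqb hq using fun k => Filter.eventually_prod_iff.1 (h4 k)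
  have hV : ∀ k, ∀ᶠ M : Fin n → Matrix (Fin d) (Fin d) 𝕜 in nhds M0, pa k (M k) ∧ qa k (M k) :=
    fun k => (continuous_apply k).continuousAt.eventually ((hpa k).and (hqa k))
  refine ⟨{M | ∀ k, pa k (M k) ∧ qa k (M k)}, Filter.eventually_all.2 hV, ?_⟩
  have hR : ∀ k, Filter.Tendsto (fun t : ℝ => t⁻¹ • (W t k - 1) - Y k)
      (nhdsWithin 0 (Set.Ioi 0)) (nhds 0) := by
    intro k
    have := (hWY k).sub_const (Y k)
    rwa [sub_self] at this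
  have hb : ∀ᶠ t in nhdsWithin (0 : ℝ) (Set.Ioi 0), ∀ k,
      pb k (t⁻¹ • (W t k - 1) - Y k) ∧ qb k (W t k) :=
    Filter.eventually_all.2 fun k => ((hR k).eventually (hpb k)).and ((hW k).eventually (hqb k))
  filter_upwards [hb, self_mem_nhdsWithin] with t ht ht0
  have ht0' : (0 : ℝ) < t := ht0
  obtain ⟨c0, hc0, hc0k⟩ : ∃ c0 : ℝ, 0 < c0 ∧ ∀ k, c0 ≤ c k := by
    rcases isEmpty_or_nonempty (Fin n) with he | hne
    · exact ⟨1, one_pos, fun k => he.elim k⟩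
    · obtain ⟨k0, hk0⟩ := Finite.exists_min c
      exact ⟨c k0, hc k0, hk0⟩
  refine ⟨1 + t * c0, by nlinarith, fun M hM k => ?_⟩
  have hA := hp k (hM k).1 (ht k).1
  have hB := hq k (hM k).2 (ht k).2
  have hWt : ∀ y : Fin d → 𝕜, W t k *ᵥ y
      = y + t • ((Y k + (t⁻¹ • (W t k - 1) - Y k)) *ᵥ y) := by
    intro y
    rw [add_sub_cancel, Matrix.smul_mulVec, smul_smul, mul_inv_cancel₀ ht0'.ne', one_smul,
      Matrix.sub_mulVec, Matrix.one_mulVec, add_sub_cancel]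
  refine ⟨fun x hx hx0 => (hA x hx hx0 ψ1 hψ1).1, fun y hy => ?_, fun y hy ψ hψ => ?_⟩
  · rw [← Matrix.mulVec_mulVec]
    exact hB y (subset_closure hy) (hK.ne_zero hy)
  · obtain ⟨h5, h6⟩ := hA y (subset_closure hy) (hK.ne_zero hy) ψ hψ
    have h7 : ψ ⬝ᵥ (M k *ᵥ y) ≠ 0 := hψ _ h5
    have h8 : ψ ⬝ᵥ ((W t k * M k) *ᵥ y) = (ψ ⬝ᵥ (M k *ᵥ y)) * (1 + (t : 𝕜) *
        (ψ ⬝ᵥ ((Y k + (t⁻¹ • (W t k - 1) - Y k)) *ᵥ (M k *ᵥ y)) / ψ ⬝ᵥ (M k *ᵥ y))) := by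
      rw [← Matrix.mulVec_mulVec, hWt, dotProduct_add, dotProduct_smul,
        RCLike.real_smul_eq_coe_mul]
      field_simp
    rw [h8, norm_mul, mul_comm]
    refine mul_le_mul_of_nonneg_left ?_ (norm_nonneg _)
    refine le_trans ?_ (RCLike.re_le_norm _)
    rw [map_add, RCLike.one_re, RCLike.re_ofReal_mul]
    have h9 := (hc0k k).trans h6.le
    have h10 := mul_le_mul_of_nonneg_left h9 ht0'.le
    linarith

end growth

lemma S_pos {G 𝕜 : Type*} [Group G] [NormedField 𝕜] {d : ℕ}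
    (ρ : G →* Matrix (Fin d) (Fin d) 𝕜) (a : Fin d) (g : G) : 0 < S (ρ g) := by
  have h1 : 0 < S (1 : Matrix (Fin d) (Fin d) 𝕜) := by
    unfold S
    refine Finset.sum_pos' (fun _ _ => Finset.sum_nonneg fun _ _ => norm_nonneg _)
      ⟨a, Finset.mem_univ a, Finset.sum_pos' (fun _ _ => norm_nonneg _)
        ⟨a, Finset.mem_univ a, ?_⟩⟩
    simp
  have h2 : S (1 : Matrix (Fin d) (Fin d) 𝕜) ≤ S (ρ g) * S (ρ g⁻¹) := by
    have := S_mul (ρ g) (ρ g⁻¹)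
    rwa [← map_mul, mul_inv_cancel, map_one] at this
  rcases (S_nonneg (ρ g)).lt_or_eq with h | h
  · exact h
  · rw [← h, zero_mul] at h2
    linarith

lemma S_mul3 {G 𝕜 : Type*} [Group G] [NormedField 𝕜] {d : ℕ}
    (ρ : G →* Matrix (Fin d) (Fin d) 𝕜) (x y z : G) :
    S (ρ (x * y * z)) ≤ S (ρ x) * S (ρ y) * S (ρ z) := by
  rw [map_mul, map_mul]
  exact (S_mul _ _).trans (mul_le_mul_of_nonneg_right (S_mul _ _) (S_nonneg _))

/-- cohomologous functions have comparable products -/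
lemma coh_comp {X G 𝕜 : Type*} [MeasurableSpace X] (μ : Measure X) [IsProbabilityMeasure μ]
    (T : X → X) (hT : MeasurePreserving T μ μ) [Group G] [TopologicalSpace G]
    [IsTopologicalGroup G] [MeasurableSpace G] [BorelSpace G] [NormedField 𝕜] {d n : ℕ}
    (ρ : G →* Matrix (Fin d) (Fin d) 𝕜) (hρ : Continuous ρ) (ι : X → Fin n) (g h : Fin n → G)
    (hc : Cohomologous μ T (fun x => g (ι x)) (fun x => h (ι x))) : Comp μ T ρ ι g h := by
  obtain ⟨f, hf, hfe⟩ := hc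
  have hS : Continuous fun y : G => S (ρ y) := by
    unfold S
    refine continuous_finsetSum _ fun i _ => continuous_finsetSum _ fun j _ => ?_
    exact ((continuous_apply_apply i j).comp hρ).norm
  have hae : ∀ m : ℕ, ∀ᵐ x ∂μ, f (T^[m] x) * cyc T (fun x => g (ι x)) m x
      = cyc T (fun x => h (ι x)) m x * f x := by
    intro m
    induction m with
    | zero => exact Filter.Eventually.of_forall fun x => by simp [cyc]
    | succ m ih =>
      have h2 := (hT.iterate m).quasiMeasurePreserving.ae hfe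
      filter_upwards [ih, h2] with x hx1 hx2
      rw [cyc, cyc, Function.iterate_succ_apply', ← mul_assoc, hx2, mul_assoc, hx1, mul_assoc]
  set F : X → ℝ := fun x => max (S (ρ (f x))) (S (ρ (f x)⁻¹)) with hF
  have hFm : Measurable F := (hS.measurable.comp hf).max (hS.measurable.comp hf.inv)
  intro q
  set ε : ENNReal := ENNReal.ofReal (1 / ((q : ℝ) + 1)) with hε
  have hε0 : 0 < ε := ENNReal.ofReal_pos.2 (by positivity)
  obtain ⟨N, hN⟩ : ∃ N : ℕ, μ {x | (N : ℝ) < F x} ≤ ε / 2 := by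
    have hanti : Antitone fun N : ℕ => {x | (N : ℝ) < F x} := by
      intro N M hNM x hx
      have : (N : ℝ) ≤ M := by exact_mod_cast hNM
      exact lt_of_le_of_lt this hx
    have hlim := tendsto_measure_iInter_atTop (μ := μ) (s := fun N : ℕ => {x | (N : ℝ) < F x})
      (fun N => (measurableSet_lt measurable_const hFm).nullMeasurableSet) hanti
      ⟨0, measure_ne_top μ _⟩
    have hempty : (⋂ N : ℕ, {x | (N : ℝ) < F x}) = ∅ := by
      ext x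
      simp only [Set.mem_iInter, Set.mem_ofPred_eq, Set.mem_empty_iff_false, iff_false, not_forall,
        not_lt]
      exact exists_nat_ge (F x)
    rw [hempty, measure_empty] at hlim
    have := (ENNReal.tendsto_nhds_zero.1 hlim) (ε / 2) (ENNReal.half_pos hε0.ne')
    exact this.exists
  refine ⟨N * N, fun m => ?_⟩
  have hsub : {x | ((N * N : ℕ) : ℝ) * S (ρ (cyc T (fun x => h (ι x)) m x))
        < S (ρ (cyc T (fun x => g (ι x)) m x)) ∨
      ((N * N : ℕ) : ℝ) * S (ρ (cyc T (fun x => g (ι x)) m x))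
        < S (ρ (cyc T (fun x => h (ι x)) m x))} ⊆
      ({x | (N : ℝ) < F x} ∪ T^[m] ⁻¹' {x | (N : ℝ) < F x}) ∪
        {x | ¬ (f (T^[m] x) * cyc T (fun x => g (ι x)) m x
      = cyc T (fun x => h (ι x)) m x * f x)} := by
    intro x hx
    by_contra hcon
    simp only [Set.mem_union, Set.mem_ofPred_eq, Set.mem_preimage, not_or, not_lt, not_not] at hcon
    obtain ⟨⟨hx1, hx2⟩, hx3⟩ := hcon
    have b1 : S (ρ (f x)) ≤ N := (le_max_left _ _).trans hx1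
    have b2 : S (ρ (f x)⁻¹) ≤ N := (le_max_right _ _).trans hx1
    have b3 : S (ρ (f (T^[m] x))) ≤ N := (le_max_left _ _).trans hx2
    have b4 : S (ρ (f (T^[m] x))⁻¹) ≤ N := (le_max_right _ _).trans hx2
    have e1 : cyc T (fun x => h (ι x)) m x
        = f (T^[m] x) * cyc T (fun x => g (ι x)) m x * (f x)⁻¹ := by
      rw [hx3]; group
    have e2 : cyc T (fun x => g (ι x)) m x
        = (f (T^[m] x))⁻¹ * cyc T (fun x => h (ι x)) m x * f x := by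
      rw [mul_assoc, ← hx3]; group
    have est : ∀ (A B C : ℝ), 0 ≤ A → 0 ≤ B → 0 ≤ C → A ≤ N → C ≤ N →
        A * B * C ≤ ((N * N : ℕ) : ℝ) * B := by
      intro A B C hA hB hC hAN hCN
      push_cast
      have : A * C ≤ (N : ℝ) * N := mul_le_mul hAN hCN hC (Nat.cast_nonneg _)
      nlinarith
    rcases hx with hx | hx
    · refine absurd hx (not_lt.2 ?_)
      rw [e2]
      exact (S_mul3 ρ _ _ _).trans (est _ _ _ (S_nonneg _) (S_nonneg _) (S_nonneg _) b4 b1)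
    · refine absurd hx (not_lt.2 ?_)
      rw [e1]
      exact (S_mul3 ρ _ _ _).trans (est _ _ _ (S_nonneg _) (S_nonneg _) (S_nonneg _) b3 b2)
  have hnull : μ {x | ¬ (f (T^[m] x) * cyc T (fun x => g (ι x)) m x
      = cyc T (fun x => h (ι x)) m x * f x)} = 0 := hae m
  have hpre : μ (T^[m] ⁻¹' {x | (N : ℝ) < F x}) = μ {x | (N : ℝ) < F x} :=
    (hT.iterate m).measure_preimage (measurableSet_lt measurable_const hFm).nullMeasurableSet
  calc _ ≤ _ := measure_mono hsub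
    _ ≤ μ ({x | (N : ℝ) < F x} ∪ T^[m] ⁻¹' {x | (N : ℝ) < F x}) + _ := measure_union_le _ _
    _ ≤ (μ {x | (N : ℝ) < F x} + μ (T^[m] ⁻¹' {x | (N : ℝ) < F x})) + 0 :=
        add_le_add (measure_union_le _ _) hnull.le
    _ ≤ ε / 2 + ε / 2 := by rw [hpre, add_zero]; exact add_le_add hN hN
    _ = ε := ENNReal.add_halves ε

lemma entry_le {𝕜 : Type*} [NormedField 𝕜] {d : ℕ} (M : Matrix (Fin d) (Fin d) 𝕜) (i j : Fin d) :
    ‖M i j‖ ≤ S M :=
  (Finset.single_le_sum (f := fun j => ‖M i j‖) (fun _ _ => norm_nonneg _)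
    (Finset.mem_univ j)).trans
  (Finset.single_le_sum (f := fun i => ∑ j, ‖M i j‖)
    (fun _ _ => Finset.sum_nonneg fun _ _ => norm_nonneg _) (Finset.mem_univ i))

lemma meas_cyc {X G : Type*} [MeasurableSpace X] {T : X → X} (hT : Measurable T) [Group G]
    [MeasurableSpace G] [MeasurableMul₂ G] {n : ℕ} {ι : X → Fin n} (hι : Measurable ι) (m : ℕ) :
    Measurable fun z : (Fin n → G) × X => cyc T (fun x => z.1 (ι x)) m z.2 := by
  have hev : Measurable fun w : (Fin n → G) × Fin n => w.1 w.2 :=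
    measurable_from_prod_countable_left fun i => measurable_pi_apply i
  induction m with
  | zero => exact measurable_const
  | succ m ih =>
    refine Measurable.mul ?_ ih
    exact hev.comp (measurable_fst.prodMk (hι.comp ((hT.iterate m).comp measurable_snd)))

lemma meas_comp {X G 𝕜 : Type*} [RCLike 𝕜] [MeasurableSpace X] (μ : Measure X) [IsProbabilityMeasure μ]
    {T : X → X} (hT : Measurable T) [Group G] [TopologicalSpace G] [MeasurableSpace G]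
    [BorelSpace G] [MeasurableMul₂ G] {d n : ℕ} (ρ : G →* Matrix (Fin d) (Fin d) 𝕜)
    (hρ : Continuous ρ) {ι : X → Fin n} (hι : Measurable ι) :
    MeasurableSet {p : (Fin n → G) × (Fin n → G) | Comp μ T ρ ι p.1 p.2} := by
  have hS : Continuous fun y : G => S (ρ y) := by
    unfold S
    refine continuous_finsetSum _ fun i _ => continuous_finsetSum _ fun j _ => ?_
    exact ((continuous_apply_apply i j).comp hρ).norm
  have e : {p : (Fin n → G) × (Fin n → G) | Comp μ T ρ ι p.1 p.2} = ⋂ q : ℕ, ⋃ K : ℕ, ⋂ m : ℕ,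
      {p : (Fin n → G) × (Fin n → G) |
        μ {x | (K : ℝ) * S (ρ (cyc T (fun x => p.2 (ι x)) m x))
            < S (ρ (cyc T (fun x => p.1 (ι x)) m x)) ∨
          (K : ℝ) * S (ρ (cyc T (fun x => p.1 (ι x)) m x))
            < S (ρ (cyc T (fun x => p.2 (ι x)) m x))}
        ≤ ENNReal.ofReal (1 / ((q : ℝ) + 1))} := by
    ext p
    simp only [Comp, Set.mem_ofPred_eq, Set.mem_iInter, Set.mem_iUnion]
  rw [e]
  refine MeasurableSet.iInter fun q => MeasurableSet.iUnion fun K => MeasurableSet.iInter fun m => ?_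
  have hm1 : Measurable fun z : ((Fin n → G) × (Fin n → G)) × X =>
      S (ρ (cyc T (fun x => z.1.1 (ι x)) m z.2)) :=
    hS.measurable.comp ((meas_cyc hT hι m).comp
      ((measurable_fst.comp measurable_fst).prodMk measurable_snd))
  have hm2 : Measurable fun z : ((Fin n → G) × (Fin n → G)) × X =>
      S (ρ (cyc T (fun x => z.1.2 (ι x)) m z.2)) :=
    hS.measurable.comp ((meas_cyc hT hι m).comp
      ((measurable_snd.comp measurable_fst).prodMk measurable_snd))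
  have hs : MeasurableSet {z : ((Fin n → G) × (Fin n → G)) × X |
      (K : ℝ) * S (ρ (cyc T (fun x => z.1.2 (ι x)) m z.2))
          < S (ρ (cyc T (fun x => z.1.1 (ι x)) m z.2)) ∨
        (K : ℝ) * S (ρ (cyc T (fun x => z.1.1 (ι x)) m z.2))
          < S (ρ (cyc T (fun x => z.1.2 (ι x)) m z.2))} :=
    (measurableSet_lt (hm2.const_mul _) hm1).union (measurableSet_lt (hm1.const_mul _) hm2)
  exact measurableSet_le (measurable_measure_prodMk_left hs) measurable_const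

lemma coh_symm {X G : Type*} [MeasurableSpace X] {μ : Measure X} {T : X → X} [Group G]
    [MeasurableSpace G] [MeasurableInv G] {φ ψ : X → G} (h : Cohomologous μ T φ ψ) :
    Cohomologous μ T ψ φ := by
  obtain ⟨f, hf, hfe⟩ := h
  refine ⟨fun x => (f x)⁻¹, hf.inv, ?_⟩
  filter_upwards [hfe] with x hx
  have : ψ x = f (T x) * φ x * (f x)⁻¹ := by rw [hx]; group
  rw [this]; group

lemma no_two {X G 𝕜 : Type*} [RCLike 𝕜] [MeasurableSpace X] (μ : Measure X)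
    [IsProbabilityMeasure μ] (T : X → X) [Group G] {d n : ℕ}
    (ρ : G →* Matrix (Fin d) (Fin d) 𝕜) (ι : X → Fin n) (a : Fin d) {r Q : ℝ} (hr : 1 < r)
    (hQ : 0 ≤ Q) (g1 g2 h : Fin n → G)
    (hgrow : ∀ m x, r ^ m * S (ρ (cyc T (fun x => g1 (ι x)) m x))
      ≤ Q * S (ρ (cyc T (fun x => g2 (ι x)) m x)))
    (h1 : Comp μ T ρ ι g1 h) (h2 : Comp μ T ρ ι g2 h) : False := by
  obtain ⟨K1, hK1⟩ := h1 3
  obtain ⟨K2, hK2⟩ := h2 3
  have main : ∀ m : ℕ, r ^ m ≤ Q * (K2 * K1) := by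
    intro m
    have hx : ∃ x, x ∉ ({x | (K1 : ℝ) * S (ρ (cyc T (fun x => h (ι x)) m x))
          < S (ρ (cyc T (fun x => g1 (ι x)) m x)) ∨
        (K1 : ℝ) * S (ρ (cyc T (fun x => g1 (ι x)) m x))
          < S (ρ (cyc T (fun x => h (ι x)) m x))} ∪
        {x | (K2 : ℝ) * S (ρ (cyc T (fun x => h (ι x)) m x))
          < S (ρ (cyc T (fun x => g2 (ι x)) m x)) ∨
        (K2 : ℝ) * S (ρ (cyc T (fun x => g2 (ι x)) m x))
          < S (ρ (cyc T (fun x => h (ι x)) m x))} : Set X) := by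
      by_contra hcon
      push Not at hcon
      have huniv := Set.eq_univ_of_forall hcon
      have hle := (measure_union_le (μ := μ) _ _).trans (add_le_add (hK1 m) (hK2 m))
      rw [huniv, measure_univ, ← ENNReal.ofReal_add (by positivity) (by positivity)] at hle
      have : ENNReal.ofReal (1 / (((3 : ℕ) : ℝ) + 1) + 1 / (((3 : ℕ) : ℝ) + 1)) < 1 := by
        rw [← ENNReal.ofReal_one]
        exact (ENNReal.ofReal_lt_ofReal_iff one_pos).2 (by norm_num)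
      exact absurd hle (not_le.2 this)
    obtain ⟨x, hx⟩ := hx
    simp only [Set.mem_union, Set.mem_ofPred_eq, not_or, not_lt] at hx
    obtain ⟨⟨_, hx1⟩, hx2, _⟩ := hx
    have hpos : 0 < S (ρ (cyc T (fun x => g1 (ι x)) m x)) := S_pos ρ a _
    have hD : r ^ m * S (ρ (cyc T (fun x => g1 (ι x)) m x))
        ≤ (Q * (K2 * K1)) * S (ρ (cyc T (fun x => g1 (ι x)) m x)) := by
      calc r ^ m * S (ρ (cyc T (fun x => g1 (ι x)) m x))
          ≤ Q * S (ρ (cyc T (fun x => g2 (ι x)) m x)) := hgrow m x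
        _ ≤ Q * (K2 * (K1 * S (ρ (cyc T (fun x => g1 (ι x)) m x)))) :=
            mul_le_mul_of_nonneg_left
              (hx2.trans (mul_le_mul_of_nonneg_left hx1 (Nat.cast_nonneg _))) hQ
        _ = _ := by ring
    exact le_of_mul_le_mul_right hD hpos
  obtain ⟨m, hm⟩ := pow_unbounded_of_one_lt (Q * (K2 * K1)) hr
  exact absurd (main m) (not_le.2 hm)

/-- The tuple `g` is contracting: for some set `K` as in `IsChart` and some family `u t`, `t > 0`,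
of elements of `G ^ n` with `u t → 1` and `ρ (u t k) = 1 + t (Y k) + o(t)` as `t → 0`, each `ρ (g k)`
maps the nonzero vectors of the closure of `K` into `K` and satisfies `PushedBy K (Y k)`. -/
def Contracting {G 𝕜 : Type*} [RCLike 𝕜] [Group G] [TopologicalSpace G] {d n : ℕ}
    (ρ : G →* Matrix (Fin d) (Fin d) 𝕜) (g : Fin n → G) : Prop :=
  ∃ K : Set (Fin d → 𝕜), IsChart K ∧
    ∃ (u : ℝ → Fin n → G) (Y : Fin n → Matrix (Fin d) (Fin d) 𝕜),
      Filter.Tendsto u (nhdsWithin 0 (Set.Ioi 0)) (nhds 1) ∧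
      ∀ k, Filter.Tendsto (fun t : ℝ => t⁻¹ • (ρ (u t k) - 1)) (nhdsWithin 0 (Set.Ioi 0))
          (nhds (Y k)) ∧
        MapsIn K (ρ (g k)) ∧ PushedBy K (Y k) (ρ (g k))

/-- Contracting tuples exist in abundance: let `v k`, `φ k` be such that no `φ k` vanishes at any
`v l`, and let `u t` be a curve in `G ^ n` with `ρ (u t k) = 1 + t (Y k) + o(t)`, where `v k` is an
eigenvector of `Y k` whose eigenvalue has positive real part.  Then every tuple `g` such that each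
`ρ (g k)` is close enough to a multiple of the rank one map `x ↦ φ_k(x) v_k` is contracting. -/
theorem contracting_near_rank_one {G 𝕜 : Type*} [RCLike 𝕜] [Group G] [TopologicalSpace G]
    {d n : ℕ} (ρ : G →* Matrix (Fin d) (Fin d) 𝕜) (v φ : Fin n → Fin d → 𝕜) (hn : 0 < n)
    (hvφ : ∀ k l, φ k ⬝ᵥ v l ≠ 0) (u : ℝ → Fin n → G)
    (hu : Filter.Tendsto u (nhdsWithin 0 (Set.Ioi 0)) (nhds 1))
    (Y : Fin n → Matrix (Fin d) (Fin d) 𝕜)
    (huY : ∀ k, Filter.Tendsto (fun t : ℝ => t⁻¹ • (ρ (u t k) - 1)) (nhdsWithin 0 (Set.Ioi 0))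
      (nhds (Y k))) (lam : Fin n → 𝕜)
    (hY : ∀ k, Y k *ᵥ v k = lam k • v k) (hlam : ∀ k, 0 < RCLike.re (lam k)) :
    ∃ ε : ℝ, 0 < ε ∧ ∀ g : Fin n → G,
      (∀ k, ∃ τ : 𝕜, τ ≠ 0 ∧
        ∀ x, ‖ρ (g k) *ᵥ x - (τ * (φ k ⬝ᵥ x)) • v k‖ ≤ ε * ‖τ‖ * ‖x‖) → Contracting ρ g := by
  obtain ⟨ε, hε, K, hK, h⟩ := near_rank_one v φ hn hvφ Y lam hY hlam
  refine ⟨ε, hε, fun g hg => ⟨K, hK, u, Y, hu, fun k => ?_⟩⟩
  obtain ⟨τ, hτ, hτ1⟩ := hg k
  exact ⟨huY k, h _ k τ hτ hτ1⟩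

section final

variable {G : Type*} [Group G] [TopologicalSpace G] [IsTopologicalGroup G]
  [LocallyCompactSpace G] [SecondCountableTopology G] [MeasurableSpace G]
  [BorelSpace G] (haar : Measure G) [haar.IsHaarMeasure] {d : ℕ}
  {𝕜 : Type*} [RCLike 𝕜] (ρ : G →* Matrix (Fin d) (Fin d) 𝕜) (hρ : Continuous ρ)
  {X : Type*} [MeasurableSpace X] (μ : Measure X) [IsProbabilityMeasure μ] (T : X → X)
  (hT : MeasurePreserving T μ μ) {n : ℕ} (ι : X → Fin n) (hι : Measurable ι)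

omit [IsTopologicalGroup G] [LocallyCompactSpace G] [SecondCountableTopology G]
  [MeasurableSpace G] [BorelSpace G] in
include hρ in
lemma isOpen_contracting : IsOpen {g : Fin n → G | Contracting ρ g} := by
  rw [isOpen_iff_mem_nhds]
  rintro g ⟨K, hK, u, Y, hu, hg⟩
  obtain ⟨ψ1, hψ1⟩ := hK.avoids
  have h1 : ∀ k, ∀ᶠ M in nhds (ρ (g k)), MapsIn K M ∧ PushedBy K (Y k) M := by
    intro k
    obtain ⟨c, hc, h2⟩ := hK.near (hg k).2.1 (hg k).2.2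
    obtain ⟨pa, hpa, pb, hpb, hp⟩ := Filter.eventually_prod_iff.1 h2
    filter_upwards [hpa] with M hM
    have h3 := hp hM hpb.self_of_nhds
    refine ⟨fun x hx hx0 => (h3 x hx hx0 ψ1 hψ1).1, fun x hx hx0 ψ hψ => ?_⟩
    have h4 := (h3 x hx hx0 ψ hψ).2
    simp only [add_zero] at h4
    exact hc.trans h4
  have h2 : ∀ k, ∀ᶠ g' : Fin n → G in nhds g,
      MapsIn K (ρ (g' k)) ∧ PushedBy K (Y k) (ρ (g' k)) :=
    fun k => ((hρ.comp (continuous_apply k)).continuousAt (x := g)).eventually (h1 k)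
  filter_upwards [Filter.eventually_all.2 h2] with g' hg'
  exact ⟨K, hK, u, Y, hu, fun k => ⟨(hg k).1, hg' k⟩⟩

open scoped Pointwise in
include hρ in
lemma null (h : Fin n → G)
    (hm : MeasurableSet {g : Fin n → G | Contracting ρ g ∧ Comp μ T ρ ι g h}) :
    (Measure.pi fun _ : Fin n => haar)
      {g : Fin n → G | Contracting ρ g ∧ Comp μ T ρ ι g h} = 0 := by
  by_contra hne
  obtain ⟨g0, hg0, hpos⟩ := exists_mem_forall_mem_nhdsWithin_pos_measure hne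
  obtain ⟨K, hK, u, Y, hu, hg⟩ := hg0.1
  set E : Set (Fin n → G) := {g : Fin n → G | Contracting ρ g ∧ Comp μ T ρ ι g h} with hE
  have hW : ∀ k, Filter.Tendsto (fun t : ℝ => ρ (u t k)) (nhdsWithin 0 (Set.Ioi 0)) (nhds 1) := by
    intro k
    have h1 := ((hρ.comp (continuous_apply k)).tendsto (1 : Fin n → G)).comp hu
    simp only [Function.comp_apply, Pi.one_apply, map_one] at h1
    exact h1
  obtain ⟨V, hV, hVt⟩ := hK.uniform (fun k => ρ (g0 k)) (fun k => (hg k).2.1)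
    (fun k => (hg k).2.2) (fun t k => ρ (u t k)) hW (fun k => (hg k).1)
  have hc : Continuous fun g : Fin n → G => fun k => ρ (g k) :=
    continuous_pi fun k => hρ.comp (continuous_apply k)
  obtain ⟨O, hOV, hOo, hgO⟩ := mem_nhds_iff.1 (hc.continuousAt.preimage_mem_nhds hV)
  have hOE : MeasurableSet (O ∩ E) := hOo.measurableSet.inter hm
  have hpos' : 0 < (Measure.pi fun _ : Fin n => haar) (O ∩ E) :=
    hpos _ (by rw [Set.inter_comm]; exact inter_mem_nhdsWithin _ (hOo.mem_nhds hgO))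
  have hst := Measure.div_mem_nhds_one_of_haar_pos (Measure.pi fun _ : Fin n => haar) (O ∩ E) hOE
    hpos'
  obtain ⟨t, htU, r, hr, hVr⟩ := ((hu.eventually hst).and hVt).exists
  obtain ⟨g2, hg2, g1, hg1, hgg⟩ := Set.mem_div.1 htU
  have hg21 : ∀ k, g2 k = u t k * g1 k := by
    intro k
    have := congrFun hgg k
    simp only [Pi.div_apply] at this
    rw [← this, div_mul_cancel]
  have hX : Nonempty X := by
    by_contra hX
    rw [not_nonempty_iff] at hX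
    have h0 : μ Set.univ = 0 := by rw [Set.univ_eq_empty_iff.2 hX, measure_empty]
    rw [measure_univ] at h0
    exact one_ne_zero h0
  obtain ⟨x0⟩ := hX
  obtain ⟨a⟩ : Nonempty (Fin d) := by
    by_contra hne
    rw [not_nonempty_iff] at hne
    obtain ⟨y, hy⟩ := hK.nonempty
    exact hK.ne_zero hy (Subsingleton.elim _ _)
  have hP := hVr (fun k => ρ (g1 k)) (hOV hg1.1)
  have hPK : ∀ k, ∀ y ∈ K, ρ (g1 k) *ᵥ y ∈ K := fun k y hy =>
    (hP k).1 y (subset_closure hy) (hK.ne_zero hy)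
  obtain ⟨Q, hQ, hgrow⟩ := hK.growth (hP (ι x0)).1 T (A := fun x => ρ (g1 (ι x)))
    (B := fun x => ρ (u t (ι x)) * ρ (g1 (ι x))) (r := r) (by linarith) (fun x => hPK (ι x))
    (fun x => (hP (ι x)).2.1) (fun x => (hP (ι x)).2.2)
  refine no_two μ T ρ ι a hr hQ g1 g2 h (fun m x => ?_) hg1.2.2 hg2.2.2
  have e : (fun x => ρ (g2 (ι x))) = fun x => ρ (u t (ι x)) * ρ (g1 (ι x)) :=
    funext fun x => by rw [hg21, map_mul]
  rw [cyc_map, cyc_map, e]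
  exact hgrow m x

include hρ hT hι in
lemma one_side :
    ∀ᵐ p : (Fin n → G) × (Fin n → G)
      ∂((Measure.pi fun _ : Fin n => haar).prod (Measure.pi fun _ : Fin n => haar)),
      Contracting ρ p.1 → ¬ Cohomologous μ T (fun x => p.1 (ι x)) (fun x => p.2 (ι x)) := by
  have hE : MeasurableSet {p : (Fin n → G) × (Fin n → G) |
      Contracting ρ p.1 ∧ Comp μ T ρ ι p.1 p.2} :=
    ((isOpen_contracting ρ hρ).preimage continuous_fst).measurableSet.inter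
      (meas_comp μ hT.measurable ρ hρ hι)
  have key : ∀ᵐ p : (Fin n → G) × (Fin n → G)
      ∂((Measure.pi fun _ : Fin n => haar).prod (Measure.pi fun _ : Fin n => haar)),
      ¬ (Contracting ρ p.1 ∧ Comp μ T ρ ι p.1 p.2) := by
    rw [ae_iff]
    simp only [not_not]
    rw [Measure.prod_apply_symm hE]
    exact (lintegral_congr fun h => null haar ρ hρ μ T ι h
      (measurable_prodMk_right hE)).trans lintegral_zero
  filter_upwards [key] with p hp hc hcoh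
  exact hp ⟨hc, coh_comp μ T hT ρ hρ ι _ _ hcoh⟩

include hρ hT hι in
/-- For almost every pair of tuples one of which is contracting the two functions are not
cohomologous. -/
theorem result :
    ∀ᵐ p : (Fin n → G) × (Fin n → G)
      ∂((Measure.pi fun _ : Fin n => haar).prod (Measure.pi fun _ : Fin n => haar)),
      Contracting ρ p.1 ∨ Contracting ρ p.2 →
        ¬ Cohomologous μ T (fun x => p.1 (ι x)) (fun x => p.2 (ι x)) := by
  have h1 := one_side haar ρ hρ μ T hT ι hι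
  have h2 := (Measure.measurePreserving_swap (μ := Measure.pi fun _ : Fin n => haar)
    (ν := Measure.pi fun _ : Fin n => haar)).quasiMeasurePreserving.ae h1
  filter_upwards [h1, h2] with p hp1 hp2 hor hcoh
  rcases hor with h | h
  · exact hp1 h hcoh
  · exact hp2 h (coh_symm hcoh)

end final

end Pool.Agent.Results.MP_fb7d21_an.ContractingTuples
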