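import Pool.Agent.H24.FB.GenEmb

/-!
MP_fb7d21_an, Q1 (cohomology of noncompact Lie group extensions of interval exchanges).

For a large class of groups `G`, two extensions of `T` by simple functions `x ↦ g (ι x)` and
`x ↦ h (ι x)` are not measurably cohomologous for Haar-almost every pair `(g, h)`; here `T` is
ANY probability preserving map (so any interval exchange, with no condition on `(λ, π)`).

The class: `G` has a continuous surjection onto `L ⧸ C`, where `L` is (isomorphic to) a closed
subgroup of some `U(p, q)` containing a circle `diag (e^{i z_1 θ}, …, e^{i z_d θ})` with positive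
weights on the positive part and negative weights on the negative part, and `C` is a normal
subgroup consisting of scalars `c` with `c ^ k = 1`.  Examples: `L = U(1)`; `L = SU(p, q)`;
`L = Sp(2N, ℝ)` after the Cayley transform (`C` its centre: `PSL(2, ℝ)` for `N = 1`); `SO*(2N)`.

Proof.  (1) Let `r_k(x)` be the first return time of `x` to its own cell of the `k`-th partition
of a generating sequence, `S_k x = T^{r_k(x)} x`; `S_k` does not increase measures and preserves
the cells, so `f (S_k x) (f x)⁻¹ → 1` in measure for every measurable `f : X → G`.  If `f` is a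
transfer function then `w_h = f (S_k x) w_g (f x)⁻¹` for the words `w_g, w_h` of length
`r_k(x) ≥ 1` read along the orbit of `x`: so `w_h = E F w_g F⁻¹` with `E` close to `1` and `F`
bounded.  (2) Uniformly in the word `w` of length `m ≥ 1` such a relation has small probability
for `(g, h)` in a compact set: let `M(w) = ∏ D(w) A_j` be obtained by turning all letters by
`D(θ) = diag (e^{i z θ})`.  As `D(w)` strictly expands the form for `|w| > 1` and contracts it
for `|w| < 1`, `det (M(w) - c)`, `|c| = 1`, vanishes only on `|w| = 1`, so that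
`|det (M(θ) - c)| = K ∏ |sin ((θ - t_j) / 2)|`, a log-concave function between consecutive
zeros, which stays within a factor `1 ± δ` of a given constant only on a set of measure
`O(√δ)`; and `(M(w) - c)⁻¹` is controlled by Herglotz functions, which gives a tail bound
`O(Λ^{-1/2})` for its entries.  (3) Fubini and Fatou.
-/

open MeasureTheory Matrix

namespace Pool.Agent.Results.MP_fb7d21_an.HermitianQuotient

/-- `φ` and `ψ` are measurably cohomologous over `T`: there is a measurable `f : X → G` with
`f (T x) * φ x = ψ x * f x` for almost every `x`. -/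
def Cohomologous {X G : Type*} [MeasurableSpace X] (μ : Measure X) (T : X → X) [Group G]
    [MeasurableSpace G] (φ ψ : X → G) : Prop :=
  ∃ f : X → G, Measurable f ∧ ∀ᵐ x ∂μ, f (T x) * φ x = ψ x * f x

/-- A positive circle for a topological group `L` and a subgroup `C`: for some `d, k ≥ 1`, signs
`σ i = ±1` and integers `z i` with `z i > 0` if `σ i = 1` and `z i < 0` if `σ i = -1`, a
homomorphism `τ : L → GL_d(ℂ)` that is a closed embedding, whose image preserves the Hermitian
form `∑ σ i |v i|²` and contains every `diag (exp (i z_1 θ), …, exp (i z_d θ))`, and that maps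
every element of `C` to a scalar matrix `c` with `c ^ k = 1`. -/
def PositiveCircle {L : Type*} [Group L] [TopologicalSpace L] (C : Subgroup L) : Prop :=
  ∃ (d k : ℕ) (_ : 0 < d) (_ : 0 < k) (σ : Fin d → ℝ) (z : Fin d → ℤ) (τ : L →* GL (Fin d) ℂ),
    (∀ i, (σ i = 1 ∧ 0 < z i) ∨ (σ i = -1 ∧ z i < 0)) ∧
    Topology.IsClosedEmbedding τ ∧
    (∀ l : L, (τ l : Matrix (Fin d) (Fin d) ℂ)ᴴ * Matrix.diagonal (fun i => (σ i : ℂ))
      * (τ l : Matrix (Fin d) (Fin d) ℂ) = Matrix.diagonal (fun i => (σ i : ℂ))) ∧
    (∀ θ : ℝ, ∃ l : L, (τ l : Matrix (Fin d) (Fin d) ℂ)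
      = Matrix.diagonal (fun i => Complex.exp ((z i : ℂ) * (θ * Complex.I)))) ∧
    (∀ l ∈ C, ∃ c : ℂ, c ^ k = 1 ∧ (τ l : Matrix (Fin d) (Fin d) ℂ) = c • 1)

theorem result {L : Type*} [Group L] [TopologicalSpace L] [IsTopologicalGroup L]
    (C : Subgroup L) [C.Normal] (hL : PositiveCircle C)
    {G : Type*} [Group G] [TopologicalSpace G] [IsTopologicalGroup G] [LocallyCompactSpace G]
    [SecondCountableTopology G] [T2Space G] [MeasurableSpace G] [BorelSpace G]
    (haar : Measure G) [haar.IsHaarMeasure] (ρ : G →* L ⧸ C) (hρ : Continuous ρ)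
    (hsurj : Function.Surjective ρ)
    {X : Type*} [MeasurableSpace X] [MeasurableSpace.CountablyGenerated X] (μ : Measure X)
    [IsProbabilityMeasure μ] (T : X → X) (hT : MeasurePreserving T μ μ)
    {n : ℕ} (ι : X → Fin n) (hι : Measurable ι) :
    ∀ᵐ p : (Fin n → G) × (Fin n → G)
      ∂((Measure.pi fun _ : Fin n => haar).prod (Measure.pi fun _ : Fin n => haar)),
      ¬ Cohomologous μ T (fun x => p.1 (ι x)) (fun x => p.2 (ι x)) := by
  obtain ⟨d, k, hd, hk, σ, z, τ, hσz, hτ, hpres, hrot, hC⟩ := hL
  refine H24FB.gen_main_quot μ T hT ι hι hd σ (fun i => ?_) z (fun i => ?_) τ hτ hpres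
    (fun θ => ?_) C k hk hC haar ρ hρ hsurj
  · rcases hσz i with h | h
    · exact Or.inl h.1
    · exact Or.inr h.1
  · rcases hσz i with ⟨h, hz⟩ | ⟨h, hz⟩
    · rw [h, one_mul]; exact_mod_cast hz
    · rw [h, neg_one_mul]
      have h1 : (z i : ℝ) ≤ -1 := by exact_mod_cast Int.le_sub_one_of_lt hz
      linarith
  · obtain ⟨l, hl⟩ := hrot θ
    refine ⟨l, ?_⟩
    rw [hl]
    unfold H24FB.Dm H24FB.eC
    congr 1
    funext i
    rw [Complex.exp_int_mul]

end Pool.Agent.Results.MP_fb7d21_an.HermitianQuotient
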